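import Pool.Agent.Q124.EB.Chain

/-!
# Chaining from a level on
-/

set_option autoImplicit false
set_option linter.unusedSectionVars false

namespace Q69DL

open Finset
open Pool.Agent.Q124.EB (change)

/-- the points of the levels, from the level `j₀` on -/
theorem chain_from {D : ℕ} (z : (Fin D → ℕ) → ℝ) (J j₀ : ℕ) (hj₀ : j₀ ≤ J)
    (a : ℕ → ℝ) (ha : ∀ j, 0 ≤ a j)
    (hz : ∀ j ≤ J, j₀ < j → ∀ (l : Fin D) (i : Fin D → ℕ), (∀ l', 2 ^ (J - j) ∣ i l') → (∀ l', i l' ≤ 2 ^ J) →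
      i l + 2 ^ (J - j) ≤ 2 ^ J → |z (Function.update i l (i l + 2 ^ (J - j))) - z i| ≤ a j)
    (i : Fin D → ℕ) (hi : ∀ l, i l ≤ 2 ^ J) :
    |z i - z (fun l => 2 ^ (J - j₀) * (i l / 2 ^ (J - j₀)))| ≤ D * ∑ j ∈ Ioc j₀ J, a j := by
  have hlv : ∀ k, j₀ + k ≤ J → |z (fun l => 2 ^ (J - (j₀ + k)) * (i l / 2 ^ (J - (j₀ + k)))) -
      z (fun l => 2 ^ (J - j₀) * (i l / 2 ^ (J - j₀)))| ≤ D * ∑ j ∈ Ioc j₀ (j₀ + k), a j := by
    intro k
    induction k with
    | zero =>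
      intro _
      simp
    | succ k ih =>
      intro hj
      have h0 := ih (by omega)
      obtain ⟨j, hjd⟩ : ∃ j, j = j₀ + k := ⟨_, rfl⟩
      have hk1 : j₀ + (k + 1) = j + 1 := by omega
      rw [hk1] at hj ⊢
      rw [← hjd] at h0
      have e : 2 ^ (J - j) = 2 * 2 ^ (J - (j + 1)) := by
        rw [← pow_succ']
        congr 1
        omega
      have h1 := change z (2 ^ J) 0 (2 ^ (J - (j + 1))) (a (j + 1)) (ha (j + 1)) (hz (j + 1) hj (by omega))
        (fun l => 2 ^ (J - j) * (i l / 2 ^ (J - j)))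
        (fun l => 2 ^ (J - (j + 1)) * (i l / 2 ^ (J - (j + 1))))
        (fun l => by
          rw [e, mul_comm 2, mul_assoc]
          exact dvd_mul_right _ _)
        (fun l => by
          rw [e, mul_comm 2, ← Nat.div_div_eq_div_mul]
          generalize 2 ^ (J - (j + 1)) = w
          generalize i l / w = y
          rcases Nat.even_or_odd' y with ⟨c, hc | hc⟩
          · left
            rw [hc, Nat.mul_div_cancel_left _ (by norm_num)]
            ring
          · right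
            have : (2 * c + 1) / 2 = c := by omega
            rw [hc, this]
            ring)
        (fun l => (Nat.mul_div_le _ _).trans (hi l)) rfl
      have h2 : Ioc j₀ (j + 1) = insert (j + 1) (Ioc j₀ j) := by
        ext x
        rw [mem_insert, mem_Ioc, mem_Ioc]
        omega
      rw [h2, sum_insert (by rw [mem_Ioc]; omega), mul_add]
      calc |z (fun l => 2 ^ (J - (j + 1)) * (i l / 2 ^ (J - (j + 1)))) - z (fun l => 2 ^ (J - j₀) * (i l / 2 ^ (J - j₀)))|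
          ≤ |z (fun l => 2 ^ (J - (j + 1)) * (i l / 2 ^ (J - (j + 1)))) - z (fun l => 2 ^ (J - j) * (i l / 2 ^ (J - j)))| +
            |z (fun l => 2 ^ (J - j) * (i l / 2 ^ (J - j))) - z (fun l => 2 ^ (J - j₀) * (i l / 2 ^ (J - j₀)))| :=
            abs_sub_le _ _ _
        _ ≤ D * a (j + 1) + D * ∑ k ∈ Ioc j₀ j, a k := add_le_add h1 h0
  have h := hlv (J - j₀) (by omega)
  have e0 : j₀ + (J - j₀) = J := by omega
  rw [e0] at h
  have e : (fun l => 2 ^ (J - J) * (i l / 2 ^ (J - J))) = i := by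
    funext l
    simp
  rw [e] at h
  exact h

/-- **Chaining**, with bounds for the sizes of the exceptional sets. -/
theorem chain_set {Ω : Type} [DecidableEq Ω] (D : ℕ) (S : Finset Ω) (J j₀ : ℕ) (hj₀ : j₀ ≤ J) (Z : Ω → (Fin D → ℕ) → ℝ)
    (a b : ℕ → ℝ) (ha : ∀ j, 0 ≤ a j) (hb : ∀ j, 0 ≤ b j)
    (hZ : ∀ j ≤ J, j₀ < j → ∀ (l : Fin D) (i : Fin D → ℕ), (∀ l', 2 ^ (J - j) ∣ i l') → (∀ l', i l' ≤ 2 ^ J) →
      i l + 2 ^ (J - j) ≤ 2 ^ J →
      ((S.filter fun ω => a j ≤ |Z ω (Function.update i l (i l + 2 ^ (J - j))) - Z ω i|).card : ℝ) ≤ b j) :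
    ∃ T : Finset Ω, T ⊆ S ∧ (T.card : ℝ) ≤ ∑ j ∈ Ioc j₀ J, D * (2 ^ j + 1) ^ D * b j ∧
      ∀ ω ∈ S, ω ∉ T → (∀ i : Fin D → ℕ, (∀ l, i l ≤ 2 ^ J) →
        |Z ω i - Z ω (fun l => 2 ^ (J - j₀) * (i l / 2 ^ (J - j₀)))| ≤ D * ∑ j ∈ Ioc j₀ J, a j) ∧
        ∀ j ≤ J, j₀ < j → ∀ (l : Fin D) (i : Fin D → ℕ), (∀ l', 2 ^ (J - j) ∣ i l') → (∀ l', i l' ≤ 2 ^ J) →
          i l + 2 ^ (J - j) ≤ 2 ^ J → |Z ω (Function.update i l (i l + 2 ^ (J - j))) - Z ω i| ≤ a j := by
  classical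
  let bad : ℕ → Fin D → (Fin D → ℕ) → Finset Ω := fun j l m => S.filter fun ω =>
    2 ^ (J - j) * m l + 2 ^ (J - j) ≤ 2 ^ J ∧ (∀ l', 2 ^ (J - j) * m l' ≤ 2 ^ J) ∧
      a j ≤ |Z ω (Function.update (fun l' => 2 ^ (J - j) * m l') l (2 ^ (J - j) * m l + 2 ^ (J - j))) -
        Z ω (fun l' => 2 ^ (J - j) * m l')|
  have hbad : ∀ j ≤ J, j₀ < j → ∀ l m, ((bad j l m).card : ℝ) ≤ b j := by
    intro j hj hjj l m
    by_cases hedge : 2 ^ (J - j) * m l + 2 ^ (J - j) ≤ 2 ^ J ∧ ∀ l', 2 ^ (J - j) * m l' ≤ 2 ^ J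
    · have h1 := hZ j hj hjj l (fun l' => 2 ^ (J - j) * m l') (fun l' => dvd_mul_right _ _) hedge.2 hedge.1
      refine le_trans ?_ h1
      have : bad j l m ⊆ S.filter fun ω => a j ≤
          |Z ω (Function.update (fun l' => 2 ^ (J - j) * m l') l (2 ^ (J - j) * m l + 2 ^ (J - j))) -
            Z ω (fun l' => 2 ^ (J - j) * m l')| := by
        intro ω hω
        rw [mem_filter] at hω ⊢
        exact ⟨hω.1, hω.2.2.2⟩
      exact_mod_cast card_le_card this
    · have h1 : bad j l m = ∅ := by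
        refine filter_false_of_mem fun ω _ h => hedge ⟨h.1, h.2.1⟩
      rw [h1, card_empty, Nat.cast_zero]
      exact hb j
  let T : Finset Ω := (Ioc j₀ J).biUnion fun j => univ.biUnion fun l =>
    (Fintype.piFinset fun _ : Fin D => range (2 ^ j + 1)).biUnion fun m => bad j l m
  have hTS : T ⊆ S := by
    intro ω hω
    simp only [T, mem_biUnion] at hω
    obtain ⟨j, _, l, _, m, _, h⟩ := hω
    exact (mem_filter.1 h).1
  have hedges : ∀ ω ∈ S, ω ∉ T → ∀ j ≤ J, j₀ < j → ∀ (l : Fin D) (i : Fin D → ℕ), (∀ l', 2 ^ (J - j) ∣ i l') →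
      (∀ l', i l' ≤ 2 ^ J) → i l + 2 ^ (J - j) ≤ 2 ^ J →
      |Z ω (Function.update i l (i l + 2 ^ (J - j))) - Z ω i| ≤ a j := by
    intro ω hω hωT j hj hjj l i' h1 h2 h3
    by_contra hcon
    push Not at hcon
    apply hωT
    have hm : ∀ l', 2 ^ (J - j) * (i' l' / 2 ^ (J - j)) = i' l' := fun l' => Nat.mul_div_cancel' (h1 l')
    have hfun : (fun l' => 2 ^ (J - j) * (i' l' / 2 ^ (J - j))) = i' := funext hm
    simp only [T, mem_biUnion]
    refine ⟨j, mem_Ioc.2 ⟨hjj, hj⟩, l, mem_univ l, fun l' => i' l' / 2 ^ (J - j), ?_, ?_⟩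
    · rw [Fintype.mem_piFinset]
      intro l'
      rw [mem_range, Nat.lt_succ_iff]
      calc i' l' / 2 ^ (J - j) ≤ 2 ^ J / 2 ^ (J - j) := Nat.div_le_div_right (h2 l')
        _ = 2 ^ j := by
            rw [Nat.pow_div (by omega) (by norm_num)]
            congr 1
            omega
    · simp only [bad, mem_filter]
      rw [hfun, hm]
      exact ⟨hω, h3, fun l' => by rw [hm]; exact h2 l', hcon.le⟩
  refine ⟨T, hTS, ?_, fun ω hω hωT => ⟨?_, hedges ω hω hωT⟩⟩
  · have h2 : (T.card : ℝ) ≤ ∑ j ∈ Ioc j₀ J, (((univ : Finset (Fin D)).biUnion fun l =>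
        (Fintype.piFinset fun _ : Fin D => range (2 ^ j + 1)).biUnion fun m => bad j l m).card : ℝ) := by
      have h3 : T.card ≤ ∑ j ∈ Ioc j₀ J, ((univ : Finset (Fin D)).biUnion fun l =>
        (Fintype.piFinset fun _ : Fin D => range (2 ^ j + 1)).biUnion fun m => bad j l m).card := card_biUnion_le
      exact_mod_cast h3
    refine h2.trans (sum_le_sum fun j hj => ?_)
    rw [mem_Ioc] at hj
    have h1 : (((univ : Finset (Fin D)).biUnion fun l =>
        (Fintype.piFinset fun _ : Fin D => range (2 ^ j + 1)).biUnion fun m => bad j l m).card : ℝ) ≤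
        ∑ l : Fin D, ∑ m ∈ Fintype.piFinset fun _ : Fin D => range (2 ^ j + 1), ((bad j l m).card : ℝ) := by
      have h2 : ((univ : Finset (Fin D)).biUnion fun l =>
          (Fintype.piFinset fun _ : Fin D => range (2 ^ j + 1)).biUnion fun m => bad j l m).card ≤
          ∑ l : Fin D, ∑ m ∈ Fintype.piFinset fun _ : Fin D => range (2 ^ j + 1), (bad j l m).card :=
        card_biUnion_le.trans (sum_le_sum fun l _ => card_biUnion_le)
      exact_mod_cast h2
    refine h1.trans ?_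
    refine (sum_le_sum fun l _ => sum_le_sum fun m _ => hbad j hj.2 hj.1 l m).trans ?_
    rw [sum_const, sum_const, card_univ, Fintype.card_fin, Fintype.card_piFinset, prod_const, card_univ,
      Fintype.card_fin, card_range, nsmul_eq_mul, nsmul_eq_mul]
    push_cast
    exact le_of_eq (by ring)
  · intro i hi
    exact chain_from (Z ω) J j₀ hj₀ a ha (hedges ω hω hωT) i hi

end Q69DL
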