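import Pool.Agent.Q69.CR.Z

/-!
# Chernoff bounds over boxes, without a lower bound for the variance
-/

set_option autoImplicit false
set_option linter.unusedSectionVars false

namespace Q69DL

open Finset
open Q69CR
open Q282LT (va zbox zprop zbox_card avg ZPer mean_shift)
open Q282.BP (bx mem_bx card_bx)
open Pool.Agent.TH894.NE (box mem_box card_box Per mean mean_mul mean_mono mean_add mean_const mean_prod)

variable {d : ℕ} {I : Finset ℕ} {q : ℕ → ℕ} {F : ℕ → (Fin d → ℕ) → ℝ}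

lemma Psi_nonneg (S : Sys d I q F) (t : ℝ) : 0 ≤ Psi d I q F t := by
  unfold Psi
  exact sum_nonneg fun a ha => Real.log_nonneg (ph_zero_ge (S.hq a ha) (S.h0 a ha) t)

lemma Psi_half (S : Sys d I q F) {T t : ℝ} (ht0 : 0 ≤ t) (ht : t ≤ T) :
    Psi d I q F t ≤ Real.exp (2 * T) * Vr d I q F * t ^ 2 / 2 := by
  obtain ⟨C, hC⟩ : ∃ C, C = Real.exp (2 * T) * Vr d I q F := ⟨_, rfl⟩
  have hC0 : 0 ≤ C := by rw [hC]; exact mul_nonneg (Real.exp_pos _).le S.V_nonneg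
  rw [← hC]
  have hg : ∀ u : ℝ, HasDerivAt (fun u => Psi d I q F u - C * u ^ 2 / 2) (mu1 d I q F u - C * u) u := by
    intro u
    have h1 := Psi_deriv S.hq S.h0 u
    have h2 := ((hasDerivAt_pow 2 u).const_mul C).div_const 2
    have h3 := h1.sub h2
    have e1 : mu1 d I q F u - C * (((2 : ℕ) : ℝ) * u ^ (2 - 1)) / 2 = mu1 d I q F u - C * u := by
      push_cast
      ring
    rw [e1] at h3
    exact h3
  have hdiff : Differentiable ℝ fun u => Psi d I q F u - C * u ^ 2 / 2 := fun u => (hg u).differentiableAt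
  have h1 := (convex_Icc 0 t).image_sub_le_mul_sub_of_deriv_le (C := 0) hdiff.continuous.continuousOn
    hdiff.differentiableOn (fun u hu => by
      rw [(hg u).deriv]
      rw [interior_Icc] at hu
      have h2 := (incr (m := mu1 d I q F) (s := mu2 d I q F) (T := T) (c := 0) (C := C)
        (mu1_deriv S.hq S.h0) (fun v hv => le_trans (mul_nonneg (Real.exp_pos _).le S.V_nonneg) (S.mu2_bounds v hv).1)
        (fun v hv => by rw [hC]; exact (S.mu2_bounds v hv).2) (x := 0) (y := u) (by linarith) hu.1.le (by linarith [hu.2])).2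
      rw [mu1_zero S.h0] at h2
      linarith) 0 (Set.left_mem_Icc.2 ht0) t (Set.right_mem_Icc.2 ht0) ht0
  simp only [Psi_zero S.hq] at h1
  linarith

/-- **Chernoff's bound over boxes.** -/
theorem chern (T : ℝ) (hT : 0 < T) : ∃ K : ℝ, 0 < K ∧ ∀ (d : ℕ) (I : Finset ℕ) (q : ℕ → ℕ) (F : ℕ → (Fin d → ℕ) → ℝ),
    Sys d I q F → ∀ t v c : ℝ, 0 < t → t ≤ T → 1 ≤ v → t ^ 2 * Vr d I q F ≤ v → 0 ≤ c → t * c ≤ v →
      ∀ Y : ℕ, 2 ≤ Y → (∀ a ∈ I, q a ≤ Y) → I.card ≤ Y → ∀ L : Fin d → ℕ, (∀ i, (d + 1) * (Y : ℝ) ^ (K * v) ≤ L i) →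
      pr L I F (fun s => c ≤ s) ≤ 4 * Real.exp (Psi d I q F t - t * c) := by
  classical
  obtain ⟨K, K₁, hK, hK₁, hcs⟩ := consts T hT
  obtain ⟨C, hC⟩ : ∃ C, C = Real.exp (2 * (3 * T)) := ⟨_, rfl⟩
  have hC1 : 1 ≤ C := by
    rw [hC]
    exact Real.one_le_exp (by linarith)
  refine ⟨K, hK, ?_⟩
  intro d I q F S t v c ht0 ht hv1 hvV hc0 htc Y hY2 hqY hIY L hL
  obtain ⟨k, hk1, hk2, hk3⟩ := hcs v hv1
  obtain ⟨hcT, hcE⟩ := hk3 Y hY2 d
  rw [← hC] at hk2 hcE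
  obtain ⟨X, hX⟩ : ∃ X, X = (d + 1) * (Y : ℝ) ^ (K * v) := ⟨_, rfl⟩
  have hYr : (2 : ℝ) ≤ Y := by exact_mod_cast hY2
  rw [← hX] at hL hcT hcE
  have hX0 : 0 < X := by rw [hX]; positivity
  have hLpos : ∀ i, (0 : ℝ) < L i := fun i => hX0.trans_le (hL i)
  have hN0 : 0 < ∏ i, (L i : ℝ) := prod_pos fun i _ => hLpos i
  have hgood := good_one (L := L) (I := I) (q := q) (F := F) (2 * k + 2) S.hq S.hF S.hb Y (by omega) hqY hIY X hX0 hL hcT
  have hE2 := (hcE t 0 (16 / t ^ 2) ht0 ht le_rfl (by positivity) (le_of_eq (by field_simp))).2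
  have hΨ1 : 1 ≤ Real.exp (Psi d I q F t) := Real.one_le_exp (Psi_nonneg S t)
  have hCv : 0 ≤ C ^ 2 * v := by positivity
  have hkA : 4 * Real.exp (Real.exp (2 * (3 * T)) * Vr d I q F * (2 * t) ^ 2 - (k + 1)) ≤ 1 / 8 := by
    rw [← hC]
    have h1 : C * Vr d I q F * (2 * t) ^ 2 - (k + 1) ≤ -8 := by
      have e1 : C * Vr d I q F * (2 * t) ^ 2 = 4 * C * (t ^ 2 * Vr d I q F) := by ring
      rw [e1]
      have h2 : 4 * C * (t ^ 2 * Vr d I q F) ≤ 4 * C * v := mul_le_mul_of_nonneg_left hvV (by positivity)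
      have h3 : 0 ≤ C * v := by positivity
      nlinarith
    have h2 := (Real.exp_le_exp.2 h1).trans exp_neg_eight
    linarith
  have h1 := S.A_le (T := 3 * T) k ht0.le (by linarith)
  have h2 := good_A (t := t) (by positivity) (by positivity) hgood k ht0.le 0 (by omega)
  simp only [pow_zero, one_mul, mul_one] at h2
  have h3 : |Del L I q F (fun s => A k (t * s))| ≤ 1 / 8 := h2.trans hE2
  have h4 : (∑ n ∈ bx L, A k (t * ∑ a ∈ I, F a n)) / (∏ i, (L i : ℝ)) ≤ 5 / 4 * Real.exp (Psi d I q F t) := by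
    have h5 : (∑ n ∈ bx L, A k (t * ∑ a ∈ I, F a n)) / (∏ i, (L i : ℝ)) =
      Del L I q F (fun s => A k (t * s)) + Em d I q F (fun s => A k (t * s)) := by
      unfold Del Em
      ring
    rw [h5]
    linarith [(abs_le.1 h3).2]
  have h5 : 1 / 2 * Real.exp (t * c) ≤ A k (t * c) := by
    have h6 := A_close k (t * c)
    have htm0 : 0 ≤ t * c := mul_nonneg ht0.le hc0
    rw [abs_of_nonneg htm0] at h6
    have h7 : 2 * Real.exp (2 * (t * c) - (k + 1)) ≤ 1 / 2 * Real.exp (t * c) := by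
      have h8 : 2 * (t * c) - (k + 1) ≤ t * c + -8 := by
        have h3 : 0 ≤ C * v := by positivity
        have h9 : (9 * C + 4 * C ^ 2 + 8) * v = 9 * (C * v) + 4 * (C ^ 2 * v) + 8 * v := by ring
        rw [h9] at hk2
        have h10 : v ≤ C * v := by nlinarith
        linarith
      have h9 := Real.exp_le_exp.2 h8
      rw [Real.exp_add] at h9
      have h10 := exp_neg_eight
      have h11 : Real.exp (t * c) * Real.exp (-8) ≤ Real.exp (t * c) * (1 / 256) :=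
        mul_le_mul_of_nonneg_left h10 (Real.exp_pos _).le
      linarith [Real.exp_pos (t * c)]
    linarith [(abs_le.1 h6).1]
  have h6 : (((bx L).filter fun n => c ≤ ∑ a ∈ I, F a n).card : ℝ) * A k (t * c) ≤ ∑ n ∈ bx L, A k (t * ∑ a ∈ I, F a n) := by
    calc (((bx L).filter fun n => c ≤ ∑ a ∈ I, F a n).card : ℝ) * A k (t * c) =
          ∑ n ∈ (bx L).filter (fun n => c ≤ ∑ a ∈ I, F a n), A k (t * c) := by rw [sum_const, nsmul_eq_mul]
      _ ≤ ∑ n ∈ (bx L).filter (fun n => c ≤ ∑ a ∈ I, F a n), A k (t * ∑ a ∈ I, F a n) := by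
          refine sum_le_sum fun n hn => ?_
          rw [mem_filter] at hn
          exact A_mono (mul_nonneg ht0.le hc0) (mul_le_mul_of_nonneg_left hn.2 ht0.le)
      _ ≤ _ := sum_le_sum_of_subset_of_nonneg (filter_subset _ _) fun n _ _ => A_nonneg _ _
  have h7 : pr L I F (fun s => c ≤ s) * A k (t * c) ≤ 5 / 4 * Real.exp (Psi d I q F t) := by
    refine le_trans ?_ h4
    unfold pr
    rw [div_mul_eq_mul_div]
    exact div_le_div_of_nonneg_right h6 hN0.le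
  have hpr0 : 0 ≤ pr L I F (fun s => c ≤ s) := by
    unfold pr
    positivity
  have h8 : pr L I F (fun s => c ≤ s) * (1 / 2 * Real.exp (t * c)) ≤ 5 / 4 * Real.exp (Psi d I q F t) :=
    (mul_le_mul_of_nonneg_left h5 hpr0).trans h7
  rw [sub_eq_add_neg, Real.exp_add, Real.exp_neg, ← mul_assoc, ← div_eq_mul_inv, le_div_iff₀ (Real.exp_pos _)]
  linarith [Real.exp_pos (Psi d I q F t)]

/-- Chernoff's bound over boxes of integers. -/
theorem chern_z (T : ℝ) (hT : 0 < T) : ∃ K : ℝ, 0 < K ∧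
    ∀ (d : ℕ) (I : Finset ℕ) (q : ℕ → ℕ) (f : ℕ → (Fin d → ℤ) → ℝ), (∀ b ∈ I, 1 ≤ q b) →
      (∀ a ∈ I, ∀ b ∈ I, a ≠ b → Nat.Coprime (q a) (q b)) → (∀ b ∈ I, ZPer (q b) (f b)) → (∀ b ∈ I, ∀ ν, |f b ν| ≤ 1) →
      ∀ W : ℝ, ∑ b ∈ I, (avg d (q b) (fun ν => f b ν ^ 2) - avg d (q b) (f b) ^ 2) ≤ W →
      ∀ t v c : ℝ, 0 < t → t ≤ T → 1 ≤ v → t ^ 2 * W ≤ v → 0 ≤ c → t * c ≤ v →
      ∀ Y : ℕ, 2 ≤ Y → (∀ a ∈ I, q a ≤ Y) → I.card ≤ Y → ∀ (m : Fin d → ℤ) (L : Fin d → ℕ),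
        (∀ i, (d + 1) * (Y : ℝ) ^ (K * v) ≤ L i) →
      zprop m L (fun ν => ∑ b ∈ I, avg d (q b) (f b) + c ≤ ∑ b ∈ I, f b ν) ≤
        4 * Real.exp (Real.exp (2 * T) * W * t ^ 2 / 2 - t * c) := by
  obtain ⟨K, hK, h⟩ := chern T hT
  refine ⟨K, hK, ?_⟩
  intro d I q f hq hco hf hb W hW t v c ht0 ht hv1 hvW hc0 htc Y hY2 hqY hIY m L hL
  obtain ⟨F, hF⟩ : ∃ F : ℕ → (Fin d → ℕ) → ℝ, F = fun b n => f b (fun i => m i + n i) - avg d (q b) (f b) := ⟨_, rfl⟩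
  have S := zsys hq hco hf hb hF
  have hVr : Vr d I q F ≤ W := (Vr_z hq hf hF).trans_le hW
  have h1 := h d I q F S t v c ht0 ht hv1
    (le_trans (mul_le_mul_of_nonneg_left hVr (sq_nonneg t)) hvW) hc0 htc Y hY2 hqY hIY L hL
  rw [pr_z hF] at h1
  refine h1.trans ?_
  refine mul_le_mul_of_nonneg_left (Real.exp_le_exp.2 ?_) (by norm_num)
  have h2 := Psi_half S ht0.le ht
  have h3 : Real.exp (2 * T) * Vr d I q F * t ^ 2 / 2 ≤ Real.exp (2 * T) * W * t ^ 2 / 2 := by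
    refine div_le_div_of_nonneg_right ?_ (by norm_num)
    refine mul_le_mul_of_nonneg_right ?_ (sq_nonneg t)
    exact mul_le_mul_of_nonneg_left hVr (Real.exp_pos _).le
  linarith

end Q69DL
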