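import Pool.Agent.Q124.EB.Mom
import Pool.Agent.Q282.LT.PoisZ

/-!
# Moments of sums of functions of windows, uniform in the order of the moment
-/

set_option autoImplicit false
set_option linter.unusedSectionVars false

namespace Q69DL

open Finset Q282LT Q285MD
open Pool.Agent.Q124.EB (exp_le_quad pow_le_exp sum_pow_le G_le_one avg_exp_sum box_pow)

variable {d s K : ℕ} {q : ℕ → ℕ} {g : ℕ → (Fin d → ℤ) → ℝ}

lemma exp_one_le_three : Real.exp 1 ≤ 3 := by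
  have := Real.exp_one_lt_d9
  linarith

/-- the moments of a separated sum -/
theorem avg_pow_sep' (h : Dat d s K q g) (h0 : ∀ k < K, ∀ ν, 0 ≤ g k ν) (X : Finset ℕ) (hX : ∀ k ∈ X, k < K)
    (hsep : ∀ k ∈ X, ∀ l ∈ X, k ≠ l → k + s ≤ l ∨ l + s ≤ k) (r : ℕ) (hr : 1 ≤ r) (N : ℝ) (hrN : (r : ℝ) ≤ N)
    (hN : ∑ k ∈ range K, avg d (wm q s k) (g k) ≤ N) :
    avg d (tm q (K + s)) (fun ν => (∑ k ∈ X, G s q g k ν) ^ (2 * r)) ≤ 2 * (12 * r * N) ^ r := by
  have hnn : ∀ k < K, 0 ≤ avg d (wm q s k) (g k) := fun k hk => by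
    have := avg_mono (q := wm q s k) (f := fun _ => 0) (g := g k) (h0 k hk)
    rwa [avg_const (h.wm_pos hk)] at this
  have hXn : ∑ k ∈ X, avg d (wm q s k) (g k) ≤ N := by
    refine le_trans ?_ hN
    exact sum_le_sum_of_subset_of_nonneg (fun k hk => mem_range.2 (hX k hk)) fun k hk _ => hnn k (mem_range.1 hk)
  have hr0 : (1 : ℝ) ≤ r := by exact_mod_cast hr
  have hN0 : 0 < N := by linarith
  obtain ⟨t, ht⟩ : ∃ t : ℝ, t = √(r / N) := ⟨_, rfl⟩
  have ht2 : t ^ 2 = r / N := by rw [ht, Real.sq_sqrt (by positivity)]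
  have ht0 : 0 < t := by rw [ht]; exact Real.sqrt_pos.2 (by positivity)
  have ht1 : t ≤ 1 := by
    rw [ht, Real.sqrt_le_left (by norm_num), one_pow, div_le_one hN0]
    exact hrN
  have htn : t ^ 2 * ∑ k ∈ X, avg d (wm q s k) (g k) ≤ r := by
    rw [ht2, div_mul_eq_mul_div, div_le_iff₀ hN0]
    exact mul_le_mul_of_nonneg_left hXn (by linarith)
  have hab : |t| ≤ 1 := by rw [abs_of_pos ht0]; exact ht1
  have hab' : |(-t)| ≤ 1 := by rw [abs_neg]; exact hab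
  have e1 : Real.exp (t ^ 2 * ∑ k ∈ X, avg d (wm q s k) (g k)) ≤ 3 ^ r := by
    refine (Real.exp_le_exp.2 htn).trans ?_
    calc Real.exp (r : ℝ) = Real.exp 1 ^ r := by rw [← Real.exp_nat_mul, mul_one]
      _ ≤ 3 ^ r := pow_le_pow_left₀ (Real.exp_pos _).le exp_one_le_three r
  have m1 := (avg_exp_sum h h0 X hX hsep hab).trans e1
  have m2 := avg_exp_sum h h0 X hX hsep hab'
  rw [neg_sq] at m2
  replace m2 := m2.trans e1
  have h3 : t ^ (2 * r) * avg d (tm q (K + s)) (fun ν => (∑ k ∈ X, G s q g k ν) ^ (2 * r)) ≤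
      (2 * r).factorial * (2 * 3 ^ r) := by
    rw [← avg_smul]
    have h4 : avg d (tm q (K + s)) (fun ν => t ^ (2 * r) * (∑ k ∈ X, G s q g k ν) ^ (2 * r)) ≤
        avg d (tm q (K + s)) (fun ν => ((2 * r).factorial : ℝ) * (Real.exp (t * ∑ k ∈ X, G s q g k ν) +
          Real.exp (-t * ∑ k ∈ X, G s q g k ν))) := by
      refine avg_mono fun ν => ?_
      have := pow_le_exp r (t * ∑ k ∈ X, G s q g k ν)
      rw [mul_pow, ← neg_mul] at this
      exact this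
    refine h4.trans ?_
    rw [avg_smul, avg_add]
    have hf : (0 : ℝ) < (2 * r).factorial := by exact_mod_cast Nat.factorial_pos _
    refine mul_le_mul_of_nonneg_left ?_ hf.le
    linarith
  have h5 : t ^ (2 * r) * (N / r) ^ r = 1 := by
    rw [pow_mul, ← mul_pow, ht2, div_mul_div_cancel₀ hN0.ne', div_self (by positivity), one_pow]
  have h6 : 0 < t ^ (2 * r) := by positivity
  have h7 : avg d (tm q (K + s)) (fun ν => (∑ k ∈ X, G s q g k ν) ^ (2 * r)) ≤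
      (2 * r).factorial * (2 * 3 ^ r) * (N / r) ^ r := by
    have h8 : avg d (tm q (K + s)) (fun ν => (∑ k ∈ X, G s q g k ν) ^ (2 * r)) =
        (t ^ (2 * r) * avg d (tm q (K + s)) (fun ν => (∑ k ∈ X, G s q g k ν) ^ (2 * r))) * (N / r) ^ r := by
      calc _ = avg d (tm q (K + s)) (fun ν => (∑ k ∈ X, G s q g k ν) ^ (2 * r)) * (t ^ (2 * r) * (N / r) ^ r) := by
            rw [h5, mul_one]
        _ = _ := by ring
    rw [h8]
    exact mul_le_mul_of_nonneg_right h3 (by positivity)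
  refine h7.trans ?_
  have hfac : ((2 * r).factorial : ℝ) ≤ (2 * r : ℝ) ^ (2 * r) := by
    have := Nat.factorial_le_pow (2 * r)
    exact_mod_cast this
  calc ((2 * r).factorial : ℝ) * (2 * 3 ^ r) * (N / r) ^ r ≤ (2 * r : ℝ) ^ (2 * r) * (2 * 3 ^ r) * (N / r) ^ r := by
        gcongr
    _ = 2 * ((2 * r : ℝ) ^ 2 * 3 * (N / r)) ^ r := by
        rw [mul_pow ((2 * r : ℝ) ^ 2 * 3) (N / r) r, mul_pow ((2 * r : ℝ) ^ 2) 3 r, pow_mul (2 * (r : ℝ)) 2 r]
        ring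
    _ = 2 * (12 * r * N) ^ r := by
        congr 2
        field_simp
        ring

/-- the moments in the model -/
theorem avg_pow_all' (h : Dat d s K q g) (h0 : ∀ k < K, ∀ ν, 0 ≤ g k ν) (hs : 0 < s) (r : ℕ) (hr : 1 ≤ r) (N : ℝ)
    (hrN : (r : ℝ) ≤ N) (hN : ∑ k ∈ range K, avg d (wm q s k) (g k) ≤ N) :
    avg d (tm q (K + s)) (fun ν => (∑ k ∈ range K, G s q g k ν) ^ (2 * r)) ≤ (24 * (s : ℝ) ^ 3 * (r * N)) ^ r := by
  classical
  have hsep : ∀ c, ∀ k ∈ (range K).filter (fun k => k % s = c), ∀ l ∈ (range K).filter (fun k => k % s = c), k ≠ l →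
      k + s ≤ l ∨ l + s ≤ k := by
    intro c k hk l hl hkl
    have h1 := (mem_filter.1 hk).2
    have h2 := (mem_filter.1 hl).2
    have h3 : k % s = l % s := h1.trans h2.symm
    rcases lt_or_gt_of_ne hkl with h4 | h4
    · left
      have h5 : (s : ℕ) ∣ l - k := (Nat.modEq_iff_dvd' h4.le).1 h3
      have := Nat.le_of_dvd (by omega) h5
      omega
    · right
      have h5 : (s : ℕ) ∣ k - l := (Nat.modEq_iff_dvd' h4.le).1 h3.symm
      have := Nat.le_of_dvd (by omega) h5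
      omega
  have hsplit : ∀ ν, ∑ k ∈ range K, G s q g k ν = ∑ c ∈ range s, ∑ k ∈ range K with k % s = c, G s q g k ν := by
    intro ν
    rw [sum_fiberwise_of_maps_to]
    intro k _
    exact mem_range.2 (Nat.mod_lt _ hs)
  have h1 : avg d (tm q (K + s)) (fun ν => (∑ k ∈ range K, G s q g k ν) ^ (2 * r)) ≤
      avg d (tm q (K + s)) (fun ν => (s : ℝ) ^ (2 * r) * ∑ c ∈ range s, (∑ k ∈ range K with k % s = c, G s q g k ν) ^ (2 * r)) := by
    refine avg_mono fun ν => ?_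
    rw [hsplit]
    rcases sum_pow_le (range s) (fun c => ∑ k ∈ range K with k % s = c, G s q g k ν) r with h2 | h2
    · rw [card_range] at h2
      exact h2
    · rw [range_eq_empty_iff] at h2
      omega
  refine h1.trans ?_
  rw [avg_smul, avg_sum]
  have h2 : ∑ c ∈ range s, avg d (tm q (K + s)) (fun ν => (∑ k ∈ range K with k % s = c, G s q g k ν) ^ (2 * r)) ≤
      ∑ _c ∈ range s, 2 * (12 * r * N) ^ r := by
    refine sum_le_sum fun c _ => ?_
    exact avg_pow_sep' h h0 _ (fun k hk => mem_range.1 (mem_filter.1 hk).1) (hsep c) r hr N hrN hN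
  rw [sum_const, card_range, nsmul_eq_mul] at h2
  have hs1 : (1 : ℝ) ≤ s := by exact_mod_cast hs
  have hr1 : (1 : ℝ) ≤ r := by exact_mod_cast hr
  have hN0 : 0 < N := by linarith
  calc (s : ℝ) ^ (2 * r) * ∑ c ∈ range s, avg d (tm q (K + s)) (fun ν => (∑ k ∈ range K with k % s = c, G s q g k ν) ^ (2 * r))
      ≤ (s : ℝ) ^ (2 * r) * (s * (2 * (12 * r * N) ^ r)) := mul_le_mul_of_nonneg_left h2 (by positivity)
    _ = (2 * s) * ((s : ℝ) ^ 2 * (12 * r * N)) ^ r := by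
        rw [mul_pow ((s : ℝ) ^ 2) (12 * r * N) r, pow_mul (s : ℝ) 2 r]
        ring
    _ ≤ (2 * s) ^ r * ((s : ℝ) ^ 2 * (12 * r * N)) ^ r := by
        refine mul_le_mul_of_nonneg_right ?_ (by positivity)
        exact le_self_pow₀ (by linarith) (by omega)
    _ = _ := by
        rw [← mul_pow]
        congr 1
        ring

/-- **Moments over boxes**, uniform in the order. -/
theorem mom_r (s : ℕ) : ∃ C : ℝ, 1 ≤ C ∧ ∀ (r : ℕ), 1 ≤ r → ∀ (d K : ℕ) (q : ℕ → ℕ) (g : ℕ → (Fin d → ℤ) → ℝ), Dat d s K q g →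
    (∀ k < K, ∀ ν, 0 ≤ g k ν) → ∀ N : ℝ, (r : ℝ) ≤ N → ∑ k ∈ range K, avg d (wm q s k) (g k) ≤ N →
      ∀ Y : ℕ, (∀ i < K + s, q i ≤ Y) → K ≤ Y → ∀ (m : Fin d → ℤ) (L : Fin d → ℕ),
        (∀ i, 2 * (d + 1) * (Y : ℝ) ^ (2 * r * s + 2 * r) ≤ L i) →
        ∑ ν ∈ zbox m L, (∑ k ∈ range K, G s q g k ν) ^ (2 * r) ≤ (∏ i, (L i : ℝ)) * (C * (r * N)) ^ r := by
  refine ⟨48 * (s : ℝ) ^ 3 + 1, by
    have : (0 : ℝ) ≤ (s : ℝ) ^ 3 := by positivity
    linarith, ?_⟩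
  intro r hr d K q g h h0 N hrN hN Y hY hKY m L hL
  have hr1 : (1 : ℝ) ≤ r := by exact_mod_cast hr
  have hN0 : 0 < N := by linarith
  have hP : 0 ≤ ∏ i, (L i : ℝ) := prod_nonneg fun i _ => Nat.cast_nonneg _
  have hC0 : 0 ≤ ((48 * (s : ℝ) ^ 3 + 1) * (r * N)) ^ r := by positivity
  have htriv : (∀ ν, ∑ k ∈ range K, G s q g k ν = 0) → ∑ ν ∈ zbox m L, (∑ k ∈ range K, G s q g k ν) ^ (2 * r) ≤
      (∏ i, (L i : ℝ)) * ((48 * (s : ℝ) ^ 3 + 1) * (r * N)) ^ r := by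
    intro hz
    have h1 : ∑ ν ∈ zbox m L, (∑ k ∈ range K, G s q g k ν) ^ (2 * r) = 0 := by
      refine sum_eq_zero fun ν _ => ?_
      rw [hz ν]
      exact zero_pow (by omega)
    rw [h1]
    exact mul_nonneg hP hC0
  rcases Nat.eq_zero_or_pos K with hK | hK
  · subst hK
    exact htriv fun ν => by simp
  rcases Nat.eq_zero_or_pos s with hs | hs
  · subst hs
    refine htriv fun ν => ?_
    refine sum_eq_zero fun k hk => ?_
    have hkK := mem_range.1 hk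
    have hw : wm q 0 k = 1 := by
      unfold wm
      simp
    have h1 : ∀ ν', G 0 q g k ν' = G 0 q g k ν := fun ν' =>
      h.G_per hkK ν' ν fun i => by rw [hw]; simp
    have h2 := h.G_avg hkK
    have h3 : (G 0 q g k) = fun _ => G 0 q g k ν := funext h1
    rw [h3, avg_const (h.wm_pos hkK)] at h2
    exact h2
  have h1 := box_pow h h0 hK r Y hY hKY m L hL
  have h2 := avg_pow_all' h h0 hs r hr N hrN hN
  refine h1.trans (mul_le_mul_of_nonneg_left ?_ hP)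
  have hs1 : (1 : ℝ) ≤ s := by exact_mod_cast hs
  have hX : (1 : ℝ) ≤ 24 * (s : ℝ) ^ 3 * (r * N) := by
    have h3 : (1 : ℝ) ≤ (s : ℝ) ^ 3 := one_le_pow₀ hs1
    have h4 : (1 : ℝ) ≤ r * N := by nlinarith
    nlinarith
  have hX1 : (1 : ℝ) ≤ (24 * (s : ℝ) ^ 3 * (r * N)) ^ r := one_le_pow₀ hX
  calc avg d (tm q (K + s)) (fun ν => (∑ k ∈ range K, G s q g k ν) ^ (2 * r)) + 1 ≤
        2 * (24 * (s : ℝ) ^ 3 * (r * N)) ^ r := by linarith
    _ ≤ 2 ^ r * (24 * (s : ℝ) ^ 3 * (r * N)) ^ r := by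
        refine mul_le_mul_of_nonneg_right ?_ (by positivity)
        exact le_self_pow₀ (by norm_num) (by omega)
    _ = (48 * (s : ℝ) ^ 3 * (r * N)) ^ r := by
        rw [← mul_pow]
        congr 1
        ring
    _ ≤ _ := by
        refine pow_le_pow_left₀ (by positivity) ?_ r
        have h4 : 0 ≤ r * N := by positivity
        nlinarith

/-- Markov's inequality. -/
theorem tail_r (s : ℕ) : ∃ C : ℝ, 1 ≤ C ∧ ∀ (r : ℕ), 1 ≤ r → ∀ (d K : ℕ) (q : ℕ → ℕ) (g : ℕ → (Fin d → ℤ) → ℝ), Dat d s K q g →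
    (∀ k < K, ∀ ν, 0 ≤ g k ν) → ∀ N : ℝ, (r : ℝ) ≤ N → ∑ k ∈ range K, avg d (wm q s k) (g k) ≤ N →
      ∀ Y : ℕ, (∀ i < K + s, q i ≤ Y) → K ≤ Y → ∀ (m : Fin d → ℤ) (L : Fin d → ℕ),
        (∀ i, 2 * (d + 1) * (Y : ℝ) ^ (2 * r * s + 2 * r) ≤ L i) → ∀ u : ℝ, 0 < u →
        (((zbox m L).filter fun ν => u ≤ |∑ k ∈ range K, G s q g k ν|).card : ℝ) ≤
          (∏ i, (L i : ℝ)) * (C * (r * N) / u ^ 2) ^ r := by
  obtain ⟨C, hC, hm⟩ := mom_r s
  refine ⟨C, hC, ?_⟩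
  intro r hr d K q g h h0 N hrN hN Y hY hKY m L hL u hu
  have h1 := hm r hr d K q g h h0 N hrN hN Y hY hKY m L hL
  have h2 : (((zbox m L).filter fun ν => u ≤ |∑ k ∈ range K, G s q g k ν|).card : ℝ) * u ^ (2 * r) ≤
      ∑ ν ∈ zbox m L, (∑ k ∈ range K, G s q g k ν) ^ (2 * r) := by
    rw [← nsmul_eq_mul, ← sum_const]
    refine le_trans (sum_le_sum fun ν hν => ?_) (sum_le_sum_of_subset_of_nonneg (filter_subset _ _)
      fun ν _ _ => by rw [pow_mul]; positivity)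
    have h3 := (mem_filter.1 hν).2
    calc u ^ (2 * r) ≤ |∑ k ∈ range K, G s q g k ν| ^ (2 * r) := pow_le_pow_left₀ hu.le h3 _
      _ = _ := by rw [pow_mul, sq_abs, ← pow_mul]
  have h3 := h2.trans h1
  rw [← le_div_iff₀ (by positivity)] at h3
  refine h3.trans (le_of_eq ?_)
  rw [div_pow, ← pow_mul]
  ring

end Q69DL
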