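import Pool.Agent.Q69.DL.Chain
import Pool.Agent.Q69.DL.Mom
import Pool.Agent.Q184.EB.Corner
import Pool.Agent.Q124.EB.Psi

/-!
# Corner sets: exponential bounds for the increments inside of the cells of a fixed grid
-/

set_option autoImplicit false
set_option linter.unusedSectionVars false

namespace Q69DL

open Finset Pool.Agent.Q255.EB
open Q282LT (avg zbox ZPer card_zbox)
open Q285MD (wm Dat G avg_mono avg_add avg_smul avg_const avg_sum avg_dvd avg_abs)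
open Pool.Agent.Q184.EB (gi gi_bd avg_gi sum_ite_range wm_pos per_pr Mt Wt Zt_eq Mt_inc Mt_mono Wt_mono tt kk kk_sub tt_bd edge)
open Pool.Agent.Q124.EB (change)

/-- the tail of an increment -/
theorem inc_tail (s : ℕ) : ∃ C : ℝ, 1 ≤ C ∧ ∀ (r : ℕ), 1 ≤ r → ∀ (d K n : ℕ) (q : ℕ → ℕ) (x : ℕ → (Fin d → ℤ) → ℝ),
    n = K + s → Fam d n q x → (∀ t y, 0 ≤ Psi d n q x t y ∧ Psi d n q x t y ≤ 1) →
    (∀ t t' y, t ≤ t' → Psi d n q x t y ≤ Psi d n q x t' y) →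
    (∀ t, 0 ≤ t → t ≤ 1 → ∑ k ∈ range n, Q282LT.avg d (q k) (fun ν => Psi d n q x t (x k ν)) = n * t) →
    ∀ Y : ℕ, (∀ i < K + s, q i ≤ Y) → K ≤ Y → ∀ (m : Fin d → ℤ) (L : Fin d → ℕ),
      (∀ i, 2 * (d + 1) * (Y : ℝ) ^ (2 * r * s + 2 * r) ≤ L i) →
    ∀ (K' K'' : ℕ), K' ≤ K'' → K'' ≤ K → ∀ (t t' : Fin s → ℝ), (∀ i, t i ≤ t' i) → (∀ i, 0 ≤ t i) → (∀ i, t' i ≤ 1) →
    ∀ N : ℝ, n * ∑ i : Fin s, (t' i - t i) + ((K'' : ℝ) - K') ≤ N → (r : ℝ) ≤ N → ∀ u : ℝ, 0 < u →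
      (((zbox m L).filter fun ν => u ≤ |Zt n q x K'' t' ν - Zt n q x K' t ν|).card : ℝ) ≤
        (∏ i, (L i : ℝ)) * (C * (r * N) / u ^ 2) ^ r := by
  obtain ⟨C, hC, ht⟩ := tail_r s
  refine ⟨C, hC, ?_⟩
  intro r hr d K n q x hn hF hP1 hP2 hP4 Y hY hKY m L hL K' K'' hKK hK t t' h h0 h1 N hN hrN u hu
  subst hn
  have hD : Dat d s K q (gi (K + s) q x K' K'' t t') := by
    refine ⟨hF.q1, hF.cop, ?_, ?_⟩
    · intro k hk ν ν' hν
      unfold gi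
      rw [per_pr hF (by omega) t ν ν' hν, per_pr hF (by omega) t' ν ν' hν]
    · intro k _ ν
      have := gi_bd hP1 hP2 hKK h k ν
      rw [abs_le]
      exact ⟨by linarith, this.2⟩
  have h3 : ∀ ν, ∑ k ∈ range K, G s q (gi (K + s) q x K' K'' t t') k ν =
      Zt (K + s) q x K'' t' ν - Zt (K + s) q x K' t ν := by
    intro ν
    rw [Zt_eq, Zt_eq]
    have h4 : ∀ k ∈ range K, G s q (gi (K + s) q x K' K'' t t') k ν =
        ((if k < K'' then Pool.Agent.Q184.EB.pr (K + s) q x t' k ν else 0) -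
          (if k < K' then Pool.Agent.Q184.EB.pr (K + s) q x t k ν else 0)) -
        ((if k < K'' then avg d (wm q s k) (Pool.Agent.Q184.EB.pr (K + s) q x t' k) else 0) -
          (if k < K' then avg d (wm q s k) (Pool.Agent.Q184.EB.pr (K + s) q x t k) else 0)) := by
      intro k hk
      rw [mem_range] at hk
      unfold Q285MD.G
      rw [avg_gi (wm_pos hF (by omega))]
      rfl
    rw [sum_congr rfl h4, sum_sub_distrib, sum_sub_distrib, sum_sub_distrib,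
      sum_ite_range hK, sum_ite_range (hKK.trans hK), sum_ite_range hK,
      sum_ite_range (hKK.trans hK)]
    unfold Wt Mt
    ring
  have h5 : ∑ k ∈ range K, avg d (wm q s k) (gi (K + s) q x K' K'' t t' k) =
      Mt (K + s) q x K'' t' - Mt (K + s) q x K' t := by
    have h6 : ∀ k ∈ range K, avg d (wm q s k) (gi (K + s) q x K' K'' t t' k) =
        (if k < K'' then avg d (wm q s k) (Pool.Agent.Q184.EB.pr (K + s) q x t' k) else 0) -
          (if k < K' then avg d (wm q s k) (Pool.Agent.Q184.EB.pr (K + s) q x t k) else 0) := by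
      intro k hk
      rw [mem_range] at hk
      exact avg_gi (wm_pos hF (by omega))
    rw [sum_congr rfl h6, sum_sub_distrib, sum_ite_range hK, sum_ite_range (hKK.trans hK)]
    rfl
  have h7 := Mt_inc hP1 hP2 hP4 hF hKK (by omega) h h0 h1
  have h2 := ht r hr d K q (gi (K + s) q x K' K'' t t') hD
    (fun k _ ν => (gi_bd hP1 hP2 hKK h k ν).1) N hrN (by rw [h5]; exact h7.trans hN) Y hY hKY m L hL u hu
  simp only [h3] at h2
  exact h2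

/-- the numerical condition of the chaining -/
lemma edges_sum (D r r₂ : ℕ) (y : ℝ) (hr : r = 4 * (3 * D + 1) + r₂) (hr₂ : 120 * y ^ 2 ≤ r₂) (j : ℕ) (hj : 1 ≤ j) :
    (D : ℝ) * (2 ^ j + 1) ^ D * ((5 / 6 : ℝ) ^ j) ^ r ≤ (1 / 2) ^ j * Real.exp (-(20 * y ^ 2)) := by
  have h1 : (D : ℝ) ≤ 2 ^ D := by exact_mod_cast (Nat.lt_two_pow_self (n := D)).le
  have h2 : ((2 : ℝ) ^ j + 1) ≤ 2 ^ (j + 1) := by
    have : (1 : ℝ) ≤ 2 ^ j := one_le_pow₀ (by norm_num)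
    rw [pow_succ]
    linarith
  have h3 : (D : ℝ) * (2 ^ j + 1) ^ D ≤ 2 ^ (3 * j * D) := by
    calc (D : ℝ) * (2 ^ j + 1) ^ D ≤ 2 ^ D * (2 ^ (j + 1)) ^ D := by gcongr
      _ = 2 ^ (D + (j + 1) * D) := by rw [← pow_mul, ← pow_add]
      _ ≤ 2 ^ (3 * j * D) := by
          refine pow_le_pow_right₀ (by norm_num) ?_
          nlinarith
  have h4 : ((5 / 6 : ℝ) ^ j) ^ r = ((5 / 6 : ℝ) ^ 4) ^ (j * (3 * D + 1)) * (((5 / 6 : ℝ) ^ r₂)) ^ j := by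
    rw [hr, ← pow_mul, ← pow_mul, ← pow_mul, ← pow_add]
    congr 1
    ring
  have h5 : ((5 / 6 : ℝ) ^ 4) ^ (j * (3 * D + 1)) ≤ (1 / 2) ^ (j * (3 * D + 1)) :=
    pow_le_pow_left₀ (by positivity) (by norm_num) _
  have h6 : (5 / 6 : ℝ) ^ r₂ ≤ Real.exp (-(20 * y ^ 2)) := by
    have h7 : (5 / 6 : ℝ) ≤ Real.exp (-(1 / 6)) := by
      have := Real.add_one_le_exp (-(1 / 6) : ℝ)
      linarith
    calc (5 / 6 : ℝ) ^ r₂ ≤ Real.exp (-(1 / 6)) ^ r₂ := pow_le_pow_left₀ (by norm_num) h7 _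
      _ = Real.exp (r₂ * (-(1 / 6))) := by rw [← Real.exp_nat_mul]
      _ ≤ _ := Real.exp_le_exp.2 (by linarith)
  have h8 : ((5 / 6 : ℝ) ^ r₂) ^ j ≤ Real.exp (-(20 * y ^ 2)) := by
    refine le_trans ?_ h6
    have h9 : (5 / 6 : ℝ) ^ r₂ ≤ 1 := pow_le_one₀ (by norm_num) (by norm_num)
    calc ((5 / 6 : ℝ) ^ r₂) ^ j ≤ ((5 / 6 : ℝ) ^ r₂) ^ 1 := pow_le_pow_of_le_one (by positivity) h9 hj
      _ = _ := pow_one _
  rw [h4]
  calc (D : ℝ) * (2 ^ j + 1) ^ D * (((5 / 6 : ℝ) ^ 4) ^ (j * (3 * D + 1)) * ((5 / 6 : ℝ) ^ r₂) ^ j) ≤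
        2 ^ (3 * j * D) * ((1 / 2) ^ (j * (3 * D + 1)) * Real.exp (-(20 * y ^ 2))) := by gcongr
    _ = (1 / 2) ^ j * Real.exp (-(20 * y ^ 2)) := by
        have e : j * (3 * D + 1) = 3 * j * D + j := by ring
        rw [e, pow_add]
        have e2 : (2 : ℝ) ^ (3 * j * D) * (1 / 2) ^ (3 * j * D) = 1 := by
          rw [← mul_pow]
          norm_num
        calc (2 : ℝ) ^ (3 * j * D) * ((1 / 2) ^ (3 * j * D) * (1 / 2) ^ j * Real.exp (-(20 * y ^ 2))) =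
            ((2 : ℝ) ^ (3 * j * D) * (1 / 2) ^ (3 * j * D)) * ((1 / 2) ^ j * Real.exp (-(20 * y ^ 2))) := by ring
          _ = _ := by rw [e2, one_mul]

lemma sum_half (a b : ℕ) : ∑ j ∈ Ioc a b, (1 / 2 : ℝ) ^ j ≤ 1 := by
  have h1 : ∑ j ∈ Ioc a b, (1 / 2 : ℝ) ^ j ≤ ∑ j ∈ Ico 1 (b + 1), (1 / 2 : ℝ) ^ j := by
    refine sum_le_sum_of_subset_of_nonneg (fun j hj => ?_) fun j _ _ => by positivity
    rw [mem_Ioc] at hj
    rw [mem_Ico]
    omega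
  refine h1.trans ?_
  rw [geom_sum_Ico (by norm_num) (by omega)]
  have h2 : (0 : ℝ) < (1 / 2) ^ (b + 1) := by positivity
  rw [show (1 / 2 : ℝ) - 1 = -(1 / 2) by norm_num, div_neg, ← neg_div, div_le_iff₀ (by norm_num)]
  linarith

lemma sum_seven (a b : ℕ) : ∑ j ∈ Ioc a b, (7 / 8 : ℝ) ^ j ≤ 8 := by
  have h1 : ∑ j ∈ Ioc a b, (7 / 8 : ℝ) ^ j ≤ ∑ j ∈ range (b + 1), (7 / 8 : ℝ) ^ j := by
    refine sum_le_sum_of_subset_of_nonneg (fun j hj => ?_) fun j _ _ => by positivity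
    rw [mem_Ioc] at hj
    rw [mem_range]
    omega
  refine h1.trans ?_
  rw [geom_sum_eq (by norm_num)]
  have : (0 : ℝ) < (7 / 8) ^ (b + 1) := by positivity
  rw [show (7 / 8 : ℝ) - 1 = -(1 / 8) by norm_num, div_neg, ← neg_div, div_le_iff₀ (by norm_num)]
  linarith

end Q69DL
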