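import Pool.Agent.Q69.DL.Corner

/-!
# Corner sets: the cells
-/

set_option autoImplicit false
set_option linter.unusedSectionVars false

namespace Q69DL

open Finset Pool.Agent.Q255.EB
open Q282LT (avg zbox ZPer card_zbox)
open Q285MD (wm Dat G avg_mono avg_add avg_smul avg_const avg_sum avg_dvd avg_abs)
open Pool.Agent.Q184.EB (gi gi_bd avg_gi sum_ite_range wm_pos per_pr Mt Wt Zt_eq Mt_inc Mt_mono Wt_mono tt kk kk_sub tt_bd edge)
open Pool.Agent.Q124.EB (change)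

/-- the number of the cell -/
noncomputable def cel (J j₀ : ℕ) (u : ℝ) : ℕ := ⌊u * 2 ^ J⌋₊ / 2 ^ (J - j₀)

lemma cel_le {J j₀ : ℕ} (h : j₀ ≤ J) {u : ℝ} (hu : u ≤ 1) : cel J j₀ u ≤ 2 ^ j₀ := by
  unfold cel
  have h1 : ⌊u * 2 ^ J⌋₊ ≤ 2 ^ J := by
    apply Nat.floor_le_of_le
    push_cast
    have : (0 : ℝ) < 2 ^ J := by positivity
    nlinarith
  calc ⌊u * 2 ^ J⌋₊ / 2 ^ (J - j₀) ≤ 2 ^ J / 2 ^ (J - j₀) := Nat.div_le_div_right h1
    _ = 2 ^ j₀ := by
        rw [Nat.pow_div (by omega) (by norm_num)]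
        congr 1
        omega

/-- the choice of the finest level -/
lemma level (s K : ℕ) (hK : 0 < K) (η δ R₀ y : ℝ) (j₀ : ℕ) (hη : 0 < η) (hη1 : η ≤ 1) (hR₀ : 1 ≤ R₀)
    (hδ : δ = η / (32 * (s + 2) * R₀ * 2 ^ (j₀ + 1))) (hy : 1 ≤ y) (hyK : y ≤ δ * √K) :
    ∃ J : ℕ, j₀ < J ∧ (2 : ℝ) ^ J ≤ K + s ∧ 8 * (s + 2) * (((K : ℝ) + s) / 2 ^ J) ≤ η * y * √K ∧
      R₀ * y ^ 2 ≤ 2 * (((K : ℝ) + s) / 2 ^ J) := by
  have hK0 : (0 : ℝ) < K := by exact_mod_cast hK
  have hs0 : (0 : ℝ) ≤ s := Nat.cast_nonneg s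
  have hsK : 0 < √(K : ℝ) := Real.sqrt_pos.2 hK0
  have hKK : √(K : ℝ) * √K = K := Real.mul_self_sqrt hK0.le
  have hδ0 : 0 < δ := by rw [hδ]; positivity
  obtain ⟨P, hP⟩ : ∃ P : ℝ, P = 2 ^ (j₀ + 1) := ⟨_, rfl⟩
  have hP1 : 1 ≤ P := by rw [hP]; exact one_le_pow₀ (by norm_num)
  rw [← hP] at hδ
  have hη' : η = δ * (32 * (s + 2) * R₀ * P) := by
    rw [hδ]
    field_simp
  obtain ⟨X, hX⟩ : ∃ X : ℝ, X = 8 * (s + 2) * ((K : ℝ) + s) / (η * y * √K) := ⟨_, rfl⟩
  have hX0 : 0 < X := by rw [hX]; positivity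
  have hXm : X * (η * y * √K) = 8 * (s + 2) * ((K : ℝ) + s) := by
    rw [hX]
    field_simp
  have hη2 : η * y * √K ≤ 32 * (s + 2) * R₀ * P * δ * (δ * K) := by
    have h1 : y * √K ≤ δ * √K * √K := mul_le_mul_of_nonneg_right hyK hsK.le
    rw [mul_assoc δ, hKK] at h1
    calc η * y * √K = δ * (32 * (s + 2) * R₀ * P) * (y * √K) := by rw [← hη']; ring
      _ ≤ δ * (32 * (s + 2) * R₀ * P) * (δ * K) := mul_le_mul_of_nonneg_left h1 (by positivity)
      _ = _ := by ring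
  -- X is large
  have hXP : P ≤ X := by
    rw [hX, le_div_iff₀ (by positivity)]
    have h1 : P * (η * y * √K) ≤ P * (η * (δ * √K) * √K) := by gcongr
    have h2 : P * (η * (δ * √K) * √K) = (P * δ) * η * K := by
      calc P * (η * (δ * √K) * √K) = P * δ * η * (√K * √K) := by ring
        _ = _ := by rw [hKK]
    have h3 : P * δ ≤ 1 := by
      have h4 : P * δ * (32 * (s + 2) * R₀) = η := by
        rw [hη']
        ring
      have h5 : 1 ≤ 32 * ((s : ℝ) + 2) * R₀ := by nlinarith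
      have h6 : 0 < P * δ := by positivity
      nlinarith
    have h4 : P * δ * η * K ≤ K := by
      have h5 : P * δ * η ≤ 1 := by
        have := mul_le_mul h3 hη1 hη.le zero_le_one
        rw [one_mul] at this
        exact this
      nlinarith
    have h5 : (K : ℝ) ≤ 8 * (s + 2) * (K + s) := by nlinarith
    linarith
  obtain ⟨M, hM⟩ : ∃ M : ℕ, M = ⌈X⌉₊ := ⟨_, rfl⟩
  have hM1 : X ≤ M := by rw [hM]; exact Nat.le_ceil _
  have hM2 : (M : ℝ) ≤ X + 1 := by rw [hM]; exact (Nat.ceil_lt_add_one hX0.le).le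
  have hMP : (2 : ℕ) ^ (j₀ + 1) ≤ M := by
    have : (2 : ℝ) ^ (j₀ + 1) ≤ M := by rw [← hP]; linarith
    exact_mod_cast this
  have hM3 : 1 < M := lt_of_lt_of_le (Nat.one_lt_two_pow (by omega)) hMP
  obtain ⟨J, hJ⟩ : ∃ J : ℕ, J = Nat.clog 2 M := ⟨_, rfl⟩
  have hJ1 : M ≤ 2 ^ J := by rw [hJ]; exact Nat.le_pow_clog (by norm_num) M
  have hJ0 : 0 < J := by rw [hJ]; exact Nat.clog_pos (by norm_num) hM3
  have hJ2 : 2 ^ J < 2 * M := by
    have h1 : 2 ^ (J - 1) < M := by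
      rw [hJ]
      exact Nat.pow_pred_clog_lt_self (by norm_num) hM3
    have h2 : 2 ^ J = 2 * 2 ^ (J - 1) := by
      rw [← pow_succ']
      congr 1
      omega
    omega
  have hJ1' : (M : ℝ) ≤ 2 ^ J := by exact_mod_cast hJ1
  have hJ2' : (2 : ℝ) ^ J ≤ 2 * M := by exact_mod_cast hJ2.le
  have hX1 : 1 ≤ X := hP1.trans hXP
  have hJ4 : (2 : ℝ) ^ J ≤ 4 * X := by linarith
  have h2J : (0 : ℝ) < 2 ^ J := by positivity
  refine ⟨J, ?_, ?_, ?_, ?_⟩
  · have h1 : 2 ^ (j₀ + 1) ≤ 2 ^ J := hMP.trans hJ1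
    have h2 := (Nat.pow_le_pow_iff_right (by norm_num : 1 < 2)).1 h1
    omega
  · refine hJ4.trans ?_
    have h1 : 32 * ((s : ℝ) + 2) ≤ η * y * √K := by
      have h2 : √K * δ ≥ 1 := by
        calc √K * δ = δ * √K := mul_comm _ _
          _ ≥ 1 := by linarith
      have h3 : η * √K ≥ 32 * (s + 2) * R₀ * P := by
        rw [hη']
        have : δ * (32 * (s + 2) * R₀ * P) * √K = (√K * δ) * (32 * (s + 2) * R₀ * P) := by ring
        rw [this]
        have h4 : 0 ≤ 32 * ((s : ℝ) + 2) * R₀ * P := by positivity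
        nlinarith
      have h4 : η * √K ≤ η * y * √K := by
        have h5 : 0 < η * √K := by positivity
        nlinarith
      have h5 : 32 * ((s : ℝ) + 2) ≤ 32 * (s + 2) * R₀ * P := by
        have h6 : 1 ≤ R₀ * P := by nlinarith
        have h7 : 0 < 32 * ((s : ℝ) + 2) := by positivity
        nlinarith
      linarith
    have h2 : 4 * X * (η * y * √K) ≤ ((K : ℝ) + s) * (η * y * √K) := by
      calc 4 * X * (η * y * √K) = 4 * (X * (η * y * √K)) := by ring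
        _ = 32 * (s + 2) * (K + s) := by rw [hXm]; ring
        _ = (K + s) * (32 * (s + 2)) := by ring
        _ ≤ _ := mul_le_mul_of_nonneg_left h1 (by positivity)
    exact le_of_mul_le_mul_right h2 (by positivity)
  · rw [← mul_div_assoc, div_le_iff₀ h2J, ← hXm]
    have h1 : X ≤ 2 ^ J := hM1.trans hJ1'
    have h2 : 0 < η * y * √K := by positivity
    nlinarith
  · rw [← mul_div_assoc, le_div_iff₀ h2J]
    have h1 : R₀ * y ^ 2 * 2 ^ J ≤ R₀ * y ^ 2 * (4 * X) := mul_le_mul_of_nonneg_left hJ4 (by positivity)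
    refine h1.trans ?_
    have h2 : R₀ * y ^ 2 * (4 * X) * (η * y * √K) ≤ 2 * ((K : ℝ) + s) * (η * y * √K) := by
      calc R₀ * y ^ 2 * (4 * X) * (η * y * √K) = 4 * R₀ * y ^ 2 * (X * (η * y * √K)) := by ring
        _ = (16 * (s + 2) * R₀) * y * y * (2 * (K + s)) := by rw [hXm]; ring
        _ ≤ (16 * (s + 2) * R₀) * y * (δ * √K) * (2 * (K + s)) := by gcongr
        _ = (16 * (s + 2) * R₀ * δ) * y * √K * (2 * (K + s)) := by ring
        _ ≤ η * y * √K * (2 * (K + s)) := by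
            have h3 : 16 * (s + 2) * R₀ * δ ≤ η := by
              rw [hη']
              have h4 : 0 < 16 * ((s : ℝ) + 2) * R₀ * δ := by positivity
              have h5 : δ * (32 * (s + 2) * R₀ * P) = 2 * (16 * (s + 2) * R₀ * δ) * P := by ring
              rw [h5]
              nlinarith
            gcongr
        _ = _ := by ring
    exact le_of_mul_le_mul_right h2 (by positivity)

end Q69DL
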