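import Pool.Agent.Q69.DL.Corner2

/-!
# Corner sets: the increments inside of the cells
-/

set_option autoImplicit false
set_option linter.unusedSectionVars false

namespace Q69DL

open Finset Pool.Agent.Q255.EB
open Q282LT (avg zbox ZPer card_zbox)
open Q285MD (wm Dat G avg_mono avg_add avg_smul avg_const avg_sum avg_dvd avg_abs)
open Pool.Agent.Q184.EB (gi gi_bd avg_gi sum_ite_range wm_pos per_pr Mt Wt Zt_eq Mt_inc Mt_mono Wt_mono tt kk kk_sub tt_bd edge)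
open Pool.Agent.Q124.EB (change)

/-- the deviation at a point of the grid -/
noncomputable def Zg {d s : ℕ} (K : ℕ) (q : ℕ → ℕ) (x : ℕ → (Fin d → ℤ) → ℝ) (J : ℕ) (ν : Fin d → ℤ) (i : Fin (s + 1) → ℕ) : ℝ :=
  Zt (K + s) q x (kk K J i) (tt J i) ν

/-- the exceptional set -/
theorem grid_set (s : ℕ) (η : ℝ) (hη : 0 < η) (hη1 : η ≤ 1) : ∃ (j₀ : ℕ) (δ A : ℝ), 0 < δ ∧ 0 < A ∧
    ∀ (d K : ℕ) (q : ℕ → ℕ) (x : ℕ → (Fin d → ℤ) → ℝ), 0 < K → Fam d (K + s) q x → ∀ y : ℝ, 1 ≤ y → y ≤ δ * √K →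
    ∀ Y : ℕ, (∀ i < K + s, q i ≤ Y) → K ≤ Y → ∀ (m : Fin d → ℤ) (L : Fin d → ℕ), (∀ i, (d + 1) * (Y : ℝ) ^ (A * y ^ 2) ≤ L i) →
    ∃ (J : ℕ) (T : Finset (Fin d → ℤ)), j₀ < J ∧ T ⊆ zbox m L ∧ (T.card : ℝ) ≤ Real.exp (-(20 * y ^ 2)) * ∏ i, (L i : ℝ) ∧
      8 * (s + 2) * (((K : ℝ) + s) / 2 ^ J) ≤ η * y * √K ∧ (2 : ℝ) ^ J ≤ K + s ∧
      ∀ ν ∈ zbox m L, ν ∉ T → (∀ i : Fin (s + 1) → ℕ, (∀ l, i l ≤ 2 ^ J) →
        |Zg K q x J ν i - Zg K q x J ν (fun l => 2 ^ (J - j₀) * (i l / 2 ^ (J - j₀)))| ≤ η * y * √K / 8) ∧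
        ∀ (i i' : Fin (s + 1) → ℕ), (∀ l, i' l = i l ∨ i' l = i l + 1) → (∀ l, i' l ≤ 2 ^ J) →
          |Zg K q x J ν i' - Zg K q x J ν i| ≤ η * y * √K / 8 := by
  classical
  obtain ⟨C, hC, hinc⟩ := inc_tail s
  obtain ⟨D, hD⟩ : ∃ D : ℕ, D = s + 1 := ⟨_, rfl⟩
  have hD1 : 1 ≤ D := by omega
  have hD1r : (1 : ℝ) ≤ D := by exact_mod_cast hD1
  obtain ⟨R₀, hR₀⟩ : ∃ R₀ : ℝ, R₀ = 12 * D + 125 := ⟨_, rfl⟩
  have hR1 : 1 ≤ R₀ := by rw [hR₀]; linarith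
  obtain ⟨c₁, hc₁⟩ : ∃ c₁ : ℝ, c₁ = 1 / (64 * D) := ⟨_, rfl⟩
  have hc0 : 0 < c₁ := by rw [hc₁]; positivity
  have hs0 : (0 : ℝ) ≤ s := Nat.cast_nonneg s
  obtain ⟨C₃, hC₃⟩ : ∃ C₃ : ℝ, C₃ = C * R₀ * (2 * (s + 1)) / (c₁ ^ 2 * η ^ 2) := ⟨_, rfl⟩
  have hC₃0 : 0 < C₃ := by rw [hC₃]; positivity
  have hC₃' : C * R₀ * (2 * (s + 1)) = C₃ * (c₁ ^ 2 * η ^ 2) := by
    rw [hC₃]
    field_simp
  obtain ⟨j₀, hj₀⟩ := exists_pow_lt_of_lt_one (show (0 : ℝ) < 1 / C₃ by positivity) (show (192 / 245 : ℝ) < 1 by norm_num)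
  have hj : ∀ j, j₀ < j → C₃ * (1 / 2) ^ j ≤ (5 / 6) ^ j * (49 / 64) ^ j := by
    intro j hj
    have h1 : (192 / 245 : ℝ) ^ j ≤ (192 / 245) ^ j₀ := pow_le_pow_of_le_one (by norm_num) (by norm_num) hj.le
    have h2 : C₃ * (192 / 245) ^ j ≤ 1 := by
      have h3 : C₃ * (192 / 245 : ℝ) ^ j ≤ C₃ * (1 / C₃) := mul_le_mul_of_nonneg_left (h1.trans hj₀.le) hC₃0.le
      rwa [mul_one_div_cancel hC₃0.ne'] at h3
    have e : (1 / 2 : ℝ) ^ j = (192 / 245) ^ j * ((5 / 6) ^ j * (49 / 64) ^ j) := by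
      rw [← mul_pow, ← mul_pow]
      norm_num
    rw [e, ← mul_assoc]
    calc C₃ * (192 / 245) ^ j * ((5 / 6) ^ j * (49 / 64) ^ j) ≤ 1 * ((5 / 6) ^ j * (49 / 64) ^ j) :=
          mul_le_mul_of_nonneg_right h2 (by positivity)
      _ = _ := one_mul _
  obtain ⟨δ, hδ⟩ : ∃ δ : ℝ, δ = η / (32 * (s + 2) * R₀ * 2 ^ (j₀ + 1)) := ⟨_, rfl⟩
  have hδ0 : 0 < δ := by rw [hδ]; positivity
  refine ⟨j₀, δ, 2 * (s + 1) * R₀ + 1, hδ0, by positivity, ?_⟩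
  intro d K q x hK hF y hy hyK Y hY hKY m L hL
  obtain ⟨J, hJ1, hJ2, hJ3, hJ4⟩ := level s K hK η δ R₀ y j₀ hη hη1 hR1 hδ hy hyK
  have hK0 : (0 : ℝ) < K := by exact_mod_cast hK
  have hKK : √(K : ℝ) ^ 2 = K := Real.sq_sqrt hK0.le
  have hsK : 0 < √(K : ℝ) := Real.sqrt_pos.2 hK0
  obtain ⟨n, hn⟩ : ∃ n : ℕ, n = K + s := ⟨_, rfl⟩
  have hnr : (n : ℝ) = K + s := by rw [hn]; push_cast; rfl
  have hn0 : 0 < n := by omega
  have hns : (n : ℝ) ≤ (s + 1) * K := by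
    rw [hnr]
    have : (1 : ℝ) ≤ K := by exact_mod_cast hK
    nlinarith
  rw [← hnr] at hJ2 hJ3 hJ4
  obtain ⟨hP1, hP2, hP3, hP4, -, -⟩ := Pool.Agent.Q124.EB.t_PSI d n q x hn0 (by rw [hn]; exact hF.q1) (by rw [hn]; exact hF.per)
  obtain ⟨r₂, hr₂⟩ : ∃ r₂ : ℕ, r₂ = ⌈120 * y ^ 2⌉₊ := ⟨_, rfl⟩
  have hy2 : 1 ≤ y ^ 2 := one_le_pow₀ hy
  have hr21 : 120 * y ^ 2 ≤ r₂ := by rw [hr₂]; exact Nat.le_ceil _
  have hr22 : (r₂ : ℝ) ≤ 120 * y ^ 2 + 1 := by rw [hr₂]; exact (Nat.ceil_lt_add_one (by positivity)).le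
  obtain ⟨r, hr⟩ : ∃ r : ℕ, r = 4 * (3 * D + 1) + r₂ := ⟨_, rfl⟩
  have hr1 : 1 ≤ r := by omega
  have hrR : (r : ℝ) ≤ R₀ * y ^ 2 := by
    rw [hr, hR₀]
    push_cast
    have h1 : 0 ≤ (D : ℝ) * (y ^ 2 - 1) := mul_nonneg (by linarith) (by linarith)
    nlinarith
  have hr1r : (1 : ℝ) ≤ r := by exact_mod_cast hr1
  have hYK : 1 ≤ Y := le_trans hK hKY
  have hY1 : (1 : ℝ) ≤ Y := by exact_mod_cast hYK
  have hY2 : (2 : ℝ) ≤ Y := by
    -- K is large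
    have h1 : 2 ≤ K := by
      have h2 : 1 ≤ δ * √K := hy.trans hyK
      have h3 : δ ≤ 1 / 2 := by
        rw [hδ, div_le_iff₀ (by positivity)]
        have h4 : (1 : ℝ) ≤ 2 ^ (j₀ + 1) := one_le_pow₀ (by norm_num)
        have h5 : (1 : ℝ) ≤ R₀ * 2 ^ (j₀ + 1) := by nlinarith
        nlinarith
      have h4 : (2 : ℝ) ≤ √K := by nlinarith
      have h5 : (4 : ℝ) ≤ K := by
        rw [← hKK]
        nlinarith
      have : (2 : ℝ) ≤ K := by linarith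
      exact_mod_cast this
    exact_mod_cast h1.trans hKY
  have hL' : ∀ i, 2 * (d + 1) * (Y : ℝ) ^ (2 * r * s + 2 * r) ≤ L i := by
    intro i
    refine le_trans ?_ (hL i)
    have h2 : (2 : ℝ) * (d + 1) * (Y : ℝ) ^ (2 * r * s + 2 * r) = (d + 1) * (2 * (Y : ℝ) ^ (2 * r * s + 2 * r)) := by ring
    rw [h2]
    refine mul_le_mul_of_nonneg_left ?_ (by positivity)
    calc (2 : ℝ) * (Y : ℝ) ^ (2 * r * s + 2 * r) ≤ Y * (Y : ℝ) ^ (2 * r * s + 2 * r) :=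
          mul_le_mul_of_nonneg_right hY2 (by positivity)
      _ = (Y : ℝ) ^ ((2 * r * s + 2 * r + 1 : ℕ) : ℝ) := by
          rw [Real.rpow_natCast, pow_succ]
          ring
      _ ≤ _ := by
          refine Real.rpow_le_rpow_of_exponent_le hY1 ?_
          push_cast
          have h3 : (2 : ℝ) * r * s + 2 * r + 1 = 2 * (s + 1) * r + 1 := by ring
          rw [h3]
          have h4 : 2 * ((s : ℝ) + 1) * r ≤ 2 * (s + 1) * (R₀ * y ^ 2) := mul_le_mul_of_nonneg_left hrR (by positivity)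
          linarith
  have hP0 : (0 : ℝ) ≤ ∏ i, (L i : ℝ) := prod_nonneg fun _ _ => Nat.cast_nonneg _
  obtain ⟨U, hU⟩ : ∃ U : ℝ, U = c₁ * η * y * √K := ⟨_, rfl⟩
  have hU0 : 0 < U := by rw [hU]; positivity
  have hU2 : U ^ 2 = c₁ ^ 2 * η ^ 2 * (y ^ 2 * K) := by
    rw [hU, mul_pow, mul_pow, mul_pow, hKK]
    ring
  have hDU : (D : ℝ) * (8 * U) = η * y * √K / 8 := by
    rw [hU, hc₁]
    field_simp
    ring
  obtain ⟨a, ha⟩ : ∃ a : ℕ → ℝ, ∀ j, a j = (7 / 8) ^ j * U := ⟨_, fun _ => rfl⟩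
  obtain ⟨b, hb⟩ : ∃ b : ℕ → ℝ, ∀ j, b j = (∏ i, (L i : ℝ)) * ((5 / 6 : ℝ) ^ j) ^ r := ⟨_, fun _ => rfl⟩
  have ha0 : ∀ j, 0 < a j := fun j => by rw [ha]; positivity
  have hcS := chain_set (Ω := Fin d → ℤ) D (zbox m L) J j₀ hJ1.le (fun ν i => Zt n q x (kk K J (fun l : Fin (s + 1) => i (Fin.cast hD.symm l)))
    (tt J (fun l : Fin (s + 1) => i (Fin.cast hD.symm l))) ν) a b (fun j => (ha0 j).le)
    (fun j => by rw [hb]; exact mul_nonneg hP0 (by positivity)) ?_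
  · subst hD
    obtain ⟨T, hT1, hT2, hT3⟩ := hcS
    have haJ : ∑ j ∈ Ioc j₀ J, a j ≤ 8 * U := by
      have h1 : ∑ j ∈ Ioc j₀ J, a j = (∑ j ∈ Ioc j₀ J, (7 / 8 : ℝ) ^ j) * U := by
        rw [sum_mul]
        exact sum_congr rfl fun j _ => ha j
      rw [h1]
      exact mul_le_mul_of_nonneg_right (sum_seven _ _) hU0.le
    have haJ1 : a J ≤ 8 * U := by
      refine le_trans ?_ haJ
      exact single_le_sum (f := a) (fun j _ => (ha0 j).le) (mem_Ioc.2 ⟨hJ1, le_rfl⟩)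
    have hD0 : (0 : ℝ) ≤ ((s + 1 : ℕ) : ℝ) := Nat.cast_nonneg _
    refine ⟨J, T, hJ1, hT1, ?_, by rw [← hnr]; exact hJ3, by rw [← hnr]; exact hJ2, ?_⟩
    · refine hT2.trans ?_
      have h1 : ∀ j ∈ Ioc j₀ J, ((s + 1 : ℕ) : ℝ) * (2 ^ j + 1) ^ (s + 1) * b j ≤
          (∏ i, (L i : ℝ)) * ((1 / 2) ^ j * Real.exp (-(20 * y ^ 2))) := by
        intro j hj'
        rw [mem_Ioc] at hj'
        rw [hb]
        have h2 := edges_sum (s + 1) r r₂ y hr hr21 j (by omega)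
        calc ((s + 1 : ℕ) : ℝ) * (2 ^ j + 1) ^ (s + 1) * ((∏ i, (L i : ℝ)) * ((5 / 6 : ℝ) ^ j) ^ r) =
            (∏ i, (L i : ℝ)) * (((s + 1 : ℕ) : ℝ) * (2 ^ j + 1) ^ (s + 1) * ((5 / 6 : ℝ) ^ j) ^ r) := by ring
          _ ≤ _ := mul_le_mul_of_nonneg_left h2 hP0
      refine (sum_le_sum h1).trans ?_
      rw [← mul_sum, ← sum_mul, mul_comm]
      refine mul_le_mul_of_nonneg_right ?_ hP0
      calc (∑ j ∈ Ioc j₀ J, (1 / 2 : ℝ) ^ j) * Real.exp (-(20 * y ^ 2)) ≤ 1 * Real.exp (-(20 * y ^ 2)) :=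
            mul_le_mul_of_nonneg_right (sum_half _ _) (Real.exp_pos _).le
        _ = _ := one_mul _
    · intro ν hν hνT
      obtain ⟨h1, h2⟩ := hT3 ν hν hνT
      have hZ : ∀ i : Fin (s + 1) → ℕ, Zg K q x J ν i = Zt n q x (kk K J i) (tt J i) ν := by
        intro i
        rw [hn]
        rfl
      refine ⟨fun i hi => ?_, fun i i' hii hi' => ?_⟩
      · rw [hZ, hZ]
        refine (h1 i hi).trans ?_
        rw [← hDU]
        exact mul_le_mul_of_nonneg_left haJ hD0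
      · rw [hZ, hZ]
        have h3 := change (fun i : Fin (s + 1) → ℕ => Zt n q x (kk K J i) (tt J i) ν) (2 ^ J) 0 1 (a J) (ha0 J).le
          (fun l i0 _ hi0 hil => by
            have h4 := h2 J le_rfl hJ1 l i0 (fun l' => by simp) hi0 (by simpa using hil)
            simp only [Nat.sub_self, pow_zero] at h4
            exact h4) i i' (fun _ => one_dvd _) hii hi' rfl
        refine h3.trans ?_
        rw [← hDU]
        exact mul_le_mul_of_nonneg_left haJ1 hD0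
  · -- the edges
    subst hD
    intro j hjJ hjj l i _ hi hil
    obtain ⟨e1, e2, e3, e4⟩ := edge K J j hjJ l i hi hil
    have e5 := e4 n (by omega)
    have h2j : (0 : ℝ) < 2 ^ j := by positivity
    have h2jJ : (2 : ℝ) ^ j ≤ 2 ^ J := pow_le_pow_right₀ (by norm_num) hjJ
    have hN1 : (1 : ℝ) ≤ n / 2 ^ j := by
      rw [one_le_div h2j]
      exact h2jJ.trans hJ2
    have hN2 : (r : ℝ) ≤ 2 * (n / 2 ^ j) := by
      refine (hrR.trans hJ4).trans ?_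
      refine mul_le_mul_of_nonneg_left ?_ (by norm_num)
      exact div_le_div_of_nonneg_left (Nat.cast_nonneg n) h2j h2jJ
    have h1 := hinc r hr1 d K n q x hn (by rw [hn]; exact hF) hP1 hP2 hP4 Y hY hKY m L hL' _ _ e3 (min_le_left _ _) _ _ e1
      (fun l' => (tt_bd J i hi l').1) e2 (2 * (n / 2 ^ j)) (by linarith) hN2 (a j) (ha0 j)
    refine h1.trans ?_
    rw [hb]
    refine mul_le_mul_of_nonneg_left ?_ hP0
    refine pow_le_pow_left₀ (by positivity) ?_ r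
    rw [div_le_iff₀ (pow_pos (ha0 j) 2), ha, mul_pow, hU2]
    have h3 : ((7 / 8 : ℝ) ^ j) ^ 2 = (49 / 64) ^ j := by
      rw [← pow_mul, mul_comm, pow_mul]
      norm_num
    rw [h3]
    have h4 : (1 / 2 : ℝ) ^ j = 1 / 2 ^ j := by rw [one_div_pow]
    calc C * (r * (2 * ((n : ℝ) / 2 ^ j))) ≤ C * (R₀ * y ^ 2 * (2 * (((s + 1) * K) / 2 ^ j))) := by gcongr
      _ = C * R₀ * (2 * (s + 1)) * (y ^ 2 * K) * (1 / 2) ^ j := by
          rw [h4]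
          ring
      _ = (c₁ ^ 2 * η ^ 2) * (y ^ 2 * K) * (C₃ * (1 / 2) ^ j) := by
          rw [hC₃']
          ring
      _ ≤ (c₁ ^ 2 * η ^ 2) * (y ^ 2 * K) * ((5 / 6) ^ j * (49 / 64) ^ j) :=
          mul_le_mul_of_nonneg_left (hj j hjj) (by positivity)
      _ = _ := by ring

/-- the cell of a point -/
theorem near {d s K : ℕ} {q : ℕ → ℕ} {x : ℕ → (Fin d → ℤ) → ℝ} (hK : 0 < K) (hF : Fam d (K + s) q x) (J j₀ : ℕ) (B : ℝ)
    (ν : Fin d → ℤ) (h1 : ∀ i : Fin (s + 1) → ℕ, (∀ l, i l ≤ 2 ^ J) →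
      |Zg K q x J ν i - Zg K q x J ν (fun l => 2 ^ (J - j₀) * (i l / 2 ^ (J - j₀)))| ≤ B)
    (h2 : ∀ (i i' : Fin (s + 1) → ℕ), (∀ l, i' l = i l ∨ i' l = i l + 1) → (∀ l, i' l ≤ 2 ^ J) →
      |Zg K q x J ν i' - Zg K q x J ν i| ≤ B)
    (h3 : (s + 2) * (((K : ℝ) + s) / 2 ^ J) ≤ B) (h4' : (2 : ℝ) ^ J ≤ K + s)
    (K' : ℕ) (hK' : K' ≤ K) (t : Fin s → ℝ) (ht : ∀ i, 0 ≤ t i ∧ t i ≤ 1) (u : Fin (s + 1) → ℝ)
    (hu : u = Fin.snoc (α := fun _ => ℝ) t ((K' : ℝ) / K)) :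
    |Zt (K + s) q x K' t ν - Zg K q x J ν (fun l => 2 ^ (J - j₀) * cel J j₀ (u l))| ≤ 3 * B := by
  have hK0 : (0 : ℝ) < K := by exact_mod_cast hK
  obtain ⟨n, hn⟩ : ∃ n : ℕ, n = K + s := ⟨_, rfl⟩
  have hnr : (n : ℝ) = K + s := by rw [hn]; push_cast; rfl
  have hn0 : 0 < n := by omega
  have hZ : ∀ i : Fin (s + 1) → ℕ, Zg K q x J ν i = Zt n q x (kk K J i) (tt J i) ν := by
    intro i
    rw [hn]
    rfl
  rw [← hnr] at h3 h4'
  rw [← hn] at hF ⊢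
  obtain ⟨hP1, hP2, hP3, hP4, -, -⟩ := Pool.Agent.Q124.EB.t_PSI d n q x hn0 hF.q1 hF.per
  have hu0 : ∀ l, 0 ≤ u l ∧ u l ≤ 1 := by
    intro l
    rcases Fin.eq_castSucc_or_eq_last l with ⟨l0, rfl⟩ | rfl
    · rw [hu, Fin.snoc_castSucc]
      exact ht l0
    · rw [hu, Fin.snoc_last]
      have : (K' : ℝ) ≤ K := by exact_mod_cast hK'
      exact ⟨by positivity, (div_le_one hK0).2 this⟩
  obtain ⟨a, ha⟩ : ∃ a : Fin (s + 1) → ℕ, a = fun l => ⌊u l * 2 ^ J⌋₊ := ⟨_, rfl⟩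
  obtain ⟨b, hb⟩ : ∃ b : Fin (s + 1) → ℕ, b = fun l => ⌈u l * 2 ^ J⌉₊ := ⟨_, rfl⟩
  have h2J : (0 : ℝ) < 2 ^ J := by positivity
  have hab : ∀ l, (a l : ℝ) ≤ u l * 2 ^ J ∧ u l * 2 ^ J ≤ b l ∧ b l ≤ a l + 1 ∧ b l ≤ 2 ^ J := by
    intro l
    have h0 := (hu0 l).1
    rw [ha, hb]
    refine ⟨Nat.floor_le (by positivity), Nat.le_ceil _, Nat.ceil_le_floor_add_one _, ?_⟩
    apply Nat.ceil_le.2
    push_cast
    nlinarith [(hu0 l).2]
  have hal : ∀ l, a l ≤ b l := by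
    intro l
    have h1 := (hab l).1
    have h2 := (hab l).2.1
    exact_mod_cast h1.trans h2
  have hal2 : ∀ l, a l ≤ 2 ^ J := fun l => (hal l).trans (hab l).2.2.2
  have hta : ∀ l, tt J a l ≤ t l := by
    intro l
    have h1 := (hab l.castSucc).1
    have h2 : u l.castSucc = t l := by rw [hu, Fin.snoc_castSucc]
    unfold tt
    rw [div_le_iff₀ h2J, ← h2]
    exact h1
  have htb : ∀ l, t l ≤ tt J b l := by
    intro l
    have h1 := (hab l.castSucc).2.1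
    have h2 : u l.castSucc = t l := by rw [hu, Fin.snoc_castSucc]
    unfold tt
    rw [le_div_iff₀ h2J, ← h2]
    exact h1
  have hul : u (Fin.last s) = (K' : ℝ) / K := by rw [hu, Fin.snoc_last]
  have hka : kk K J a ≤ K' := by
    unfold kk
    refine (min_le_right _ _).trans ?_
    apply Nat.div_le_of_le_mul
    have h1 := (hab (Fin.last s)).1
    rw [hul] at h1
    have h2 : (K : ℝ) * (a (Fin.last s) : ℝ) ≤ 2 ^ J * K' := by
      have h3 := mul_le_mul_of_nonneg_left h1 hK0.le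
      have h4 : (K : ℝ) * ((K' : ℝ) / K * 2 ^ J) = 2 ^ J * K' := by
        field_simp
      linarith
    exact_mod_cast h2
  have hkb : K' ≤ kk K J b := by
    unfold kk
    refine le_min hK' ?_
    rw [Nat.le_div_iff_mul_le (by positivity)]
    have h1 := (hab (Fin.last s)).2.1
    rw [hul] at h1
    have h2 : (K' : ℝ) * 2 ^ J ≤ K * (b (Fin.last s) : ℝ) := by
      have h3 := mul_le_mul_of_nonneg_left h1 hK0.le
      have h4 : (K : ℝ) * ((K' : ℝ) / K * 2 ^ J) = K' * 2 ^ J := by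
        field_simp
      linarith
    exact_mod_cast h2
  have hkbK : kk K J b ≤ K := min_le_left _ _
  have hMab : Mt n q x (kk K J b) (tt J b) - Mt n q x (kk K J a) (tt J a) ≤ B := by
    have h1 := Mt_inc hP1 hP2 hP4 hF (hka.trans hkb)
      (by omega) (fun l => (hta l).trans (htb l))
      (fun l => (tt_bd J a hal2 l).1) (fun l => (tt_bd J b (fun l => (hab l).2.2.2) l).2)
    have h2 : ∑ l : Fin s, (tt J b l - tt J a l) ≤ s / 2 ^ J := by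
      have h3 : ∀ l ∈ (univ : Finset (Fin s)), tt J b l - tt J a l ≤ 1 / 2 ^ J := by
        intro l _
        unfold tt
        rw [← sub_div]
        have h5 := (hab l.castSucc).2.2.1
        have h6 : (b l.castSucc : ℝ) ≤ a l.castSucc + 1 := by exact_mod_cast h5
        exact div_le_div_of_nonneg_right (by linarith) h2J.le
      refine (sum_le_sum h3).trans (le_of_eq ?_)
      rw [sum_const, card_univ, Fintype.card_fin, nsmul_eq_mul]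
      ring
    have h4 := (kk_sub K J a b (hal _) (hab _).2.2.2).2
    have h5 : (K : ℝ) * ((b (Fin.last s) : ℝ) - a (Fin.last s)) / 2 ^ J ≤ n / 2 ^ J := by
      have h6 : (b (Fin.last s) : ℝ) ≤ a (Fin.last s) + 1 := by exact_mod_cast (hab (Fin.last s)).2.2.1
      have h7 : (K : ℝ) ≤ n := by
        rw [hnr]
        have : (0 : ℝ) ≤ s := by positivity
        linarith
      refine div_le_div_of_nonneg_right ?_ h2J.le
      calc (K : ℝ) * ((b (Fin.last s) : ℝ) - a (Fin.last s)) ≤ K * 1 := mul_le_mul_of_nonneg_left (by linarith) hK0.le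
        _ ≤ n := by rw [mul_one]; exact h7
    have h8 : (n : ℝ) * ∑ l : Fin s, (tt J b l - tt J a l) ≤ s * (n / 2 ^ J) := by
      calc (n : ℝ) * ∑ l : Fin s, (tt J b l - tt J a l) ≤ n * (s / 2 ^ J) :=
            mul_le_mul_of_nonneg_left h2 (by positivity)
        _ = s * (n / 2 ^ J) := by ring
    have h9 : (1 : ℝ) ≤ n / 2 ^ J := (one_le_div h2J).2 h4'
    linarith
  have hgb := h2 a b (fun l => by
    have h5 := hal l
    have h6 := (hab l).2.2.1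
    omega) (fun l => (hab l).2.2.2)
  have hga := h1 a hal2
  have hcell : (fun l => 2 ^ (J - j₀) * cel J j₀ (u l)) = fun l => 2 ^ (J - j₀) * (a l / 2 ^ (J - j₀)) := by
    funext l
    rw [ha]
    rfl
  rw [hcell]
  obtain ⟨zc, hzc⟩ : ∃ zc, zc = Zg K q x J ν (fun l => 2 ^ (J - j₀) * (a l / 2 ^ (J - j₀))) := ⟨_, rfl⟩
  rw [← hzc] at hga ⊢
  rw [hZ, hZ, Zt_eq, Zt_eq] at hgb
  rw [hZ, Zt_eq] at hga
  rw [Zt_eq]
  rw [abs_le] at hgb hga ⊢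
  have w1 := Wt_mono (n := n) (q := q) (x := x) hP1 hP2 hka hta ν
  have w2 := Wt_mono (n := n) (q := q) (x := x) hP1 hP2 hkb htb ν
  have m1 := Mt_mono hP1 hP2 hF hka (by omega) hta
  have m2 := Mt_mono hP1 hP2 hF hkb (by omega) htb
  constructor <;> linarith [hgb.1, hgb.2, hga.1, hga.2]

end Q69DL
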