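import Pool.Agent.Q69.DL.Win

/-!
# Large deviations of sums of functions of windows: the two bounds
-/

set_option autoImplicit false
set_option linter.unusedSectionVars false

namespace Q69DL

open Finset
open Q282LT (zbox zprop avg ZPer)
open Q285MD
open Q69CR (mdp_z)

variable {d s K : ℕ} {q : ℕ → ℕ} {g : ℕ → (Fin d → ℤ) → ℝ}

/-- the variance of the remaining windows -/
lemma vr_rem (h : Dat d s K q g) {B : ℕ} (hB : 0 < B) (hBK : B ≤ K) :
    vr d s K q g (rem s K B) ≤ 16 * (s : ℝ) ^ 2 * (K / B) := by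
  have h1 := h.vr_le (rem s K B) (filter_subset _ _)
  have h2 := card_rem s K B hB
  have hB0 : (0 : ℝ) < B := by exact_mod_cast hB
  have hKB : (B : ℝ) ≤ K := by exact_mod_cast hBK
  have hKB1 : 1 ≤ (K : ℝ) / B := (one_le_div hB0).2 hKB
  have hs0 : (0 : ℝ) ≤ s := Nat.cast_nonneg s
  calc vr d s K q g (rem s K B) ≤ 8 * s * (rem s K B).card := h1
    _ ≤ 8 * s * (s * (K / B + 1)) := mul_le_mul_of_nonneg_left h2 (by positivity)
    _ ≤ 8 * s * (s * (K / B + K / B)) := by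
        refine mul_le_mul_of_nonneg_left (mul_le_mul_of_nonneg_left ?_ hs0) (by positivity)
        linarith
    _ = _ := by ring

/-- comparison of the variances of the windows in the blocks and of all windows -/
lemma vr_inn (h : Dat d s K q g) {B : ℕ} (hB : 0 < B) (hBK : B ≤ K) {W c η : ℝ} (hη : 0 < η) (hη1 : η ≤ 1 / 16) (hc : 0 < c)
    (hW : c * K ≤ W) (hBs : 32 * (s : ℝ) ^ 2 ≤ B * (c * η ^ 2 / 4)) :
    (vr d s K q g (range K) ≤ W → vr d s K q g (inn s K B) ≤ (1 + η) * W) ∧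
      (vr d s K q g (range K) = W → W ≤ (1 + 2 * η) * vr d s K q g (inn s K B)) := by
  have hB0 : (0 : ℝ) < B := by exact_mod_cast hB
  have hK0 : (0 : ℝ) < K := by
    have : (B : ℝ) ≤ K := by exact_mod_cast hBK
    linarith
  have hW0 : 0 < W := lt_of_lt_of_le (by positivity) hW
  obtain ⟨VR, hVR⟩ : ∃ VR : ℝ, VR = vr d s K q g (rem s K B) := ⟨_, rfl⟩
  obtain ⟨VI, hVI⟩ : ∃ VI : ℝ, VI = vr d s K q g (inn s K B) := ⟨_, rfl⟩
  have h1 := vr_rem h hB hBK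
  rw [← hVR] at h1
  have hVR0 : 0 ≤ VR := by
    rw [hVR]
    exact vr_nonneg h _
  have hVR1 : VR ≤ η ^ 2 / 8 * W := by
    refine h1.trans ?_
    have h2 : 16 * (s : ℝ) ^ 2 * (K / B) = (32 * (s : ℝ) ^ 2) * K / (2 * B) := by
      field_simp
      ring
    rw [h2, div_le_iff₀ (by positivity)]
    calc 32 * (s : ℝ) ^ 2 * K ≤ B * (c * η ^ 2 / 4) * K := mul_le_mul_of_nonneg_right hBs hK0.le
      _ = η ^ 2 / 8 * (c * K) * (2 * B) := by ring
      _ ≤ η ^ 2 / 8 * W * (2 * B) := by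
          refine mul_le_mul_of_nonneg_right (mul_le_mul_of_nonneg_left hW (by positivity)) (by positivity)
  have hadd := vr_add (d := d) (s := s) (K := K) (q := q) (g := g) (inn s K B) (rem s K B) (disj s K B) (η / 2) (by positivity)
  rw [inn_rem, ← hVI, ← hVR] at hadd
  have hVR2 : (1 + 1 / (η / 2)) * VR ≤ η / 2 * W := by
    have h2 : 1 + 1 / (η / 2) ≤ 4 / η := by
      have e : 1 / (η / 2) = 2 / η := by field_simp
      rw [e]
      have : 1 ≤ 2 / η := by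
        rw [one_le_div hη]
        linarith
      have : 4 / η = 2 / η + 2 / η := by ring
      linarith
    calc (1 + 1 / (η / 2)) * VR ≤ 4 / η * (η ^ 2 / 8 * W) := mul_le_mul h2 hVR1 hVR0 (by positivity)
      _ = η / 2 * W := by
          field_simp
          ring
  rw [← hVI]
  constructor
  · intro hV
    have h2 := hadd.2
    have h3 : (1 + η / 2) * vr d s K q g (range K) ≤ (1 + η / 2) * W := mul_le_mul_of_nonneg_left hV (by positivity)
    linarith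
  · intro hV
    have h2 := hadd.1
    rw [hV] at h2
    have h3 : (1 - η / 2) * W ≤ (1 + η / 2) * VI := by linarith
    have h4 : (1 + η / 2) ≤ (1 + 2 * η) * (1 - η / 2) := by nlinarith
    have hVI0 : 0 ≤ VI := by
      rw [hVI]
      exact vr_nonneg h _
    have h5 : (1 + η / 2) * VI ≤ (1 + 2 * η) * (1 - η / 2) * VI := mul_le_mul_of_nonneg_right h4 hVI0
    have h6 : (1 - η / 2) * W ≤ (1 - η / 2) * ((1 + 2 * η) * VI) := by linarith
    exact le_of_mul_le_mul_left h6 (by linarith)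

lemma exp_two : (5 : ℝ) ≤ Real.exp 2 := by
  have h1 : (2.5 : ℝ) ≤ Real.exp 1 := by
    have := Real.exp_one_gt_d9
    linarith
  calc (5 : ℝ) ≤ 2.5 ^ 2 := by norm_num
    _ ≤ Real.exp 1 ^ 2 := pow_le_pow_left₀ (by norm_num) h1 2
    _ = Real.exp 2 := by
        rw [← Real.exp_nat_mul]
        norm_num

lemma ar1 {η : ℝ} (h0 : 0 < η) (h1 : η ≤ 1 / 16) : 1 - 8 * η ≤ (1 - η) * ((1 - η) ^ 2 / (1 + η)) := by
  rw [← mul_div_assoc, le_div_iff₀ (by linarith)]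
  have e : (1 - η) * (1 - η) ^ 2 - (1 - 8 * η) * (1 + η) = η * (4 + 11 * η - η ^ 2) := by ring
  have h2 : 0 ≤ η * (4 + 11 * η - η ^ 2) := by
    refine mul_nonneg h0.le ?_
    nlinarith
  linarith

lemma ar2 {η y y₁ z : ℝ} (h0 : 0 < η) (hy : 0 < y) (hy1 : 2 * y₁ ≤ y) (hz : (1 + η) * y * (1 / 2) ≤ z) : y₁ ≤ z := by
  have : 0 < η * y := mul_pos h0 hy
  linarith

lemma ar3 {e ε y : ℝ} (_h0 : 0 < e) (hε : e ≤ ε) (hy : 16 ≤ y ^ 2 * e) : 2 + -((1 - e / 2) * (y ^ 2 / 2)) ≤ -((1 - ε) * (y ^ 2 / 2)) := by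
  have h3 : e * (y ^ 2 / 2) ≤ ε * (y ^ 2 / 2) := mul_le_mul_of_nonneg_right hε (by positivity)
  nlinarith

lemma ar4 {e ε y : ℝ} (_h0 : 0 < e) (hε : e ≤ ε) (hy : 16 ≤ y ^ 2 * e) : -((1 + ε) * (y ^ 2 / 2)) ≤ -1 + -((1 + e / 2) * (y ^ 2 / 2)) := by
  have h3 : e * (y ^ 2 / 2) ≤ ε * (y ^ 2 / 2) := mul_le_mul_of_nonneg_right hε (by positivity)
  nlinarith

lemma ar5 {e y : ℝ} (_h0 : 0 < e) (he : e ≤ 1) (hy : 1 ≤ y ^ 2) : -(20 * y ^ 2) ≤ -((1 - e / 2) * (y ^ 2 / 2)) := by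
  nlinarith

lemma ar7 {cK W V η : ℝ} (h1 : cK ≤ W) (h2 : W ≤ (1 + 2 * η) * V) (hη : η ≤ 1 / 64) (hV : 0 < V) : cK ≤ 2 ^ 2 * V := by
  have : η * V ≤ 1 / 64 * V := mul_le_mul_of_nonneg_right hη hV.le
  linarith

lemma ar8 {V W η : ℝ} (h : V ≤ (1 + η) * W) (hη : η ≤ 1 / 64) (hW : 0 < W) : V ≤ 2 ^ 2 * W := by
  have : η * W ≤ 1 / 64 * W := mul_le_mul_of_nonneg_right hη hW.le
  linarith

lemma ar9 {η y Q : ℝ} (h0 : 0 < η) (h1 : η ≤ 1 / 64) (hQ : Q ≤ 1 + 2 * η) :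
    (1 + η) ^ 2 * y ^ 2 * Q ≤ (1 + 8 * η) * y ^ 2 := by
  calc (1 + η) ^ 2 * y ^ 2 * Q ≤ (1 + η) ^ 2 * y ^ 2 * (1 + 2 * η) := mul_le_mul_of_nonneg_left hQ (by positivity)
    _ = ((1 + η) ^ 2 * (1 + 2 * η)) * y ^ 2 := by ring
    _ ≤ (1 + 8 * η) * y ^ 2 := by
        refine mul_le_mul_of_nonneg_right ?_ (by positivity)
        have h2 : η ^ 2 ≤ 1 / 64 * η := by
          rw [sq]
          exact mul_le_mul_of_nonneg_right h1 h0.le
        have h3 : η ^ 3 ≤ 1 / 64 * η := by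
          calc η ^ 3 = η * η ^ 2 := by ring
            _ ≤ 1 * η ^ 2 := mul_le_mul_of_nonneg_right (by linarith) (sq_nonneg η)
            _ ≤ 1 / 64 * η := by rw [one_mul]; exact h2
        have e : (1 + η) ^ 2 * (1 + 2 * η) = 1 + 4 * η + 5 * η ^ 2 + 2 * η ^ 3 := by ring
        rw [e]
        linarith

lemma ar10 {e η z y : ℝ} (h0 : 0 < e) (he : e ≤ 1) (hη : η = e / 64) (hz : z ^ 2 ≤ (1 + 8 * η) * y ^ 2) :
    -((1 + e / 2) * (y ^ 2 / 2)) ≤ -((1 + e / 8) * (z ^ 2 / 2)) := by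
  have h2 : (1 + e / 8) * z ^ 2 ≤ (1 + e / 8) * ((1 + 8 * η) * y ^ 2) := mul_le_mul_of_nonneg_left hz (by positivity)
  have h3 : (1 + e / 8) * (1 + 8 * η) ≤ 1 + e / 2 := by
    rw [hη]
    nlinarith
  have h4 := mul_le_mul_of_nonneg_right h3 (by positivity : 0 ≤ y ^ 2)
  linarith

lemma ar11 {e y : ℝ} (he : e ≤ 1) (h : 16 ≤ y * e) (hy : 0 ≤ y) : 16 ≤ y := by
  nlinarith

lemma ar12 {e y : ℝ} (h : 16 ≤ y * e) (hy : 16 ≤ y) : 16 ≤ y ^ 2 * e := by
  nlinarith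

lemma ar13 {B K y δ : ℝ} (hB : 2 ≤ B) (hδ0 : 0 < δ) (hδ1 : δ ≤ 1 / (11 * B)) (hK : 0 < K) (hKs : y ^ 2 ≤ δ ^ 2 * K) :
    21 * y ^ 2 * B ≤ K := by
  have hB0 : 0 < B := by linarith
  have hδB : δ * B ≤ 1 / 11 := by
    calc δ * B ≤ 1 / (11 * B) * B := mul_le_mul_of_nonneg_right hδ1 hB0.le
      _ = 1 / 11 := by field_simp
  have hδBB : δ ^ 2 * B ≤ 1 / 11 * δ := by
    calc δ ^ 2 * B = (δ * B) * δ := by ring
      _ ≤ 1 / 11 * δ := mul_le_mul_of_nonneg_right hδB hδ0.le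
  have hδle : δ ≤ 1 / 22 := by
    refine hδ1.trans ?_
    exact one_div_le_one_div_of_le (by norm_num) (by linarith)
  calc 21 * y ^ 2 * B ≤ 21 * (δ ^ 2 * K) * B := by gcongr
    _ = 21 * (δ ^ 2 * B) * K := by ring
    _ ≤ 21 * (1 / 11 * δ) * K := by gcongr
    _ ≤ 1 * K := by
        refine mul_le_mul_of_nonneg_right ?_ hK.le
        linarith
    _ = K := one_mul _

lemma ar14 {B K y s : ℝ} (hB : 2 ≤ B) (hy : 1 ≤ y ^ 2) (h : 21 * y ^ 2 * B ≤ K) (hs : 0 ≤ s) :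
    B ≤ K ∧ 21 * y ^ 2 ≤ 2 * (s + 1) * (K / B) := by
  have hB0 : 0 < B := by linarith
  have h1 : B ≤ K := by nlinarith
  refine ⟨h1, ?_⟩
  rw [← mul_div_assoc, le_div_iff₀ hB0]
  have h2 : 0 ≤ s * K := mul_nonneg hs (by linarith)
  linarith

lemma ar6 {e y : ℝ} (_h0 : 0 < e) (he : e ≤ 1) (hy : 1 ≤ y ^ 2) : -(20 * y ^ 2) ≤ -1 + -((1 + e / 2) * (y ^ 2 / 2)) := by
  nlinarith

/-- **Upper bound** for sums of functions of windows. -/
theorem upper_md (s : ℕ) (c ε : ℝ) (hc : 0 < c) (hε : 0 < ε) : ∃ y₀ δ A : ℝ, 1 ≤ y₀ ∧ 0 < δ ∧ 0 < A ∧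
    ∀ (d K : ℕ) (q : ℕ → ℕ) (g : ℕ → (Fin d → ℤ) → ℝ), Dat d s K q g → (∀ k < K, ∀ ν, 0 ≤ g k ν) →
      ∀ W : ℝ, c * K ≤ W → vr d s K q g (range K) ≤ W → ∀ y : ℝ, y₀ ≤ y → y ≤ δ * √K →
      ∀ Y : ℕ, (∀ i < K + s, q i ≤ Y) → K ≤ Y → ∀ (m : Fin d → ℤ) (L : Fin d → ℕ),
        (∀ i, (d + 1) * (Y : ℝ) ^ (A * y ^ 2) ≤ L i) →
        zprop m L (fun ν => y * √W ≤ ∑ k ∈ range K, G s q g k ν) ≤ Real.exp (-((1 - ε) * (y ^ 2 / 2))) := by
  obtain ⟨e, he⟩ : ∃ e, e = min ε 1 := ⟨_, rfl⟩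
  have he0 : 0 < e := by rw [he]; positivity
  have he1 : e ≤ 1 := by rw [he]; exact min_le_right _ _
  have heε : e ≤ ε := by rw [he]; exact min_le_left _ _
  obtain ⟨η, hη⟩ : ∃ η, η = e / 16 := ⟨_, rfl⟩
  have hη0 : 0 < η := by rw [hη]; positivity
  have hη1 : η ≤ 1 / 16 := by rw [hη]; linarith
  obtain ⟨T, hT⟩ : ∃ T, T = Real.log (1 + η) / 2 := ⟨_, rfl⟩
  have hT0 : 0 < T := by
    rw [hT]
    have : 0 < Real.log (1 + η) := Real.log_pos (by linarith)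
    positivity
  have hT2 : Real.exp (2 * T) = 1 + η := by
    rw [hT, mul_div_cancel₀ _ (by norm_num : (2 : ℝ) ≠ 0), Real.exp_log (by linarith)]
  obtain ⟨K₁, hK₁, hch⟩ := chern_z T hT0
  obtain ⟨C, hC, hrem⟩ := rem_tail s
  obtain ⟨B, hB⟩ := exists_nat_ge (128 * (s : ℝ) ^ 2 / (c * η ^ 2) + C / (c * η ^ 2) + 2)
  have hBa : 0 ≤ 128 * (s : ℝ) ^ 2 / (c * η ^ 2) := by positivity
  have hBb : 0 ≤ C / (c * η ^ 2) := by positivity
  have hBr : (2 : ℝ) ≤ B := by linarith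
  have hB2 : 2 ≤ B := by exact_mod_cast hBr
  have hB0 : (0 : ℝ) < B := by linarith
  have hB0n : 0 < B := by omega
  have hBs : 32 * (s : ℝ) ^ 2 ≤ B * (c * η ^ 2 / 4) := by
    have h1 : 128 * (s : ℝ) ^ 2 / (c * η ^ 2) ≤ B := by linarith
    rw [div_le_iff₀ (by positivity)] at h1
    linarith
  have hBC : C ≤ B * (c * η ^ 2) := by
    have h1 : C / (c * η ^ 2) ≤ B := by linarith
    rw [div_le_iff₀ (by positivity)] at h1
    exact h1
  have hs0 : (0 : ℝ) ≤ s := Nat.cast_nonneg s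
  obtain ⟨δ, hδ⟩ : ∃ δ : ℝ, δ = min (1 / (11 * (B : ℝ))) (T * √c / (B : ℝ)) := ⟨_, rfl⟩
  have hsc : 0 < √c := Real.sqrt_pos.2 hc
  have hδ0 : 0 < δ := by rw [hδ]; positivity
  have hδ1 : δ ≤ 1 / (11 * B) := by rw [hδ]; exact min_le_left _ _
  have hδ2 : δ ≤ T * √c / B := by rw [hδ]; exact min_le_right _ _
  refine ⟨16 / e, δ, B * K₁ + 43 * (s + 1), by
    rw [le_div_iff₀ he0]
    linarith, hδ0, by positivity, ?_⟩
  intro d K q g h h0 W hW hV y hy hyK Y hY hKY m L hL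
  have hye : 16 ≤ y * e := by rwa [div_le_iff₀ he0] at hy
  have hy1 : 16 ≤ y := ar11 he1 hye (by
    by_contra hcon
    push Not at hcon
    have : y * e ≤ 0 := mul_nonpos_of_nonpos_of_nonneg hcon.le he0.le
    linarith)
  have hy2 : 1 ≤ y ^ 2 := one_le_pow₀ (by linarith)
  have hyy : 16 ≤ y ^ 2 * e := ar12 hye hy1
  have hKs : y ^ 2 ≤ δ ^ 2 * K := by
    have h1 := pow_le_pow_left₀ (by linarith) hyK 2
    rw [mul_pow, Real.sq_sqrt (Nat.cast_nonneg K)] at h1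
    exact h1
  have hKpos : (0 : ℝ) < K := by
    by_contra hcon
    push Not at hcon
    have : δ ^ 2 * K ≤ 0 := mul_nonpos_of_nonneg_of_nonpos (by positivity) hcon
    linarith
  have hyB : 21 * y ^ 2 * B ≤ K := ar13 hBr hδ0 hδ1 hKpos hKs
  have hBK2 := ar14 hBr hy2 hyB hs0
  have hBK : B ≤ K := by exact_mod_cast hBK2.1
  have hY2 : 2 ≤ Y := by omega
  have hY1 : (1 : ℝ) ≤ Y := by exact_mod_cast (by omega : 1 ≤ Y)
  have hW0 : 0 < W := lt_of_lt_of_le (by positivity) hW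
  have hsW : 0 < √W := Real.sqrt_pos.2 hW0
  have hWW : √W ^ 2 = W := Real.sq_sqrt hW0.le
  have hinn := (vr_inn h hB0n hBK hη0 hη1 hc hW hBs).1 hV
  -- the remaining windows
  have hr1 := hrem d K q g h h0 B hB0n hBK y (η ^ 2 * W) (by linarith) hBK2.2 (by
      calc C * K ≤ B * (c * η ^ 2) * K := mul_le_mul_of_nonneg_right hBC hKpos.le
        _ = η ^ 2 * (c * K) * B := by ring
        _ ≤ η ^ 2 * W * B := by gcongr) Y hY2 hY hKY m L (fun i => by
      refine le_trans (mul_le_mul_of_nonneg_left (Real.rpow_le_rpow_of_exponent_le hY1 ?_) (by positivity)) (hL i)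
      refine mul_le_mul_of_nonneg_right ?_ (by positivity)
      have : 0 ≤ B * K₁ := by positivity
      linarith)
  have hsη : √(η ^ 2 * W) = η * √W := by rw [Real.sqrt_mul (sq_nonneg η), Real.sqrt_sq hη0.le]
  rw [hsη] at hr1
  -- the blocks
  obtain ⟨WF, hWF⟩ : ∃ WF, WF = (1 + η) * W / (B : ℝ) ^ 2 := ⟨_, rfl⟩
  have hWF0 : 0 < WF := by rw [hWF]; positivity
  obtain ⟨cc, hcc⟩ : ∃ cc, cc = (1 - η) * y * √W / B := ⟨_, rfl⟩
  have hcc0 : 0 < cc := by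
    rw [hcc]
    have : 0 < 1 - η := by linarith
    positivity
  obtain ⟨t, ht⟩ : ∃ t, t = cc / WF := ⟨_, rfl⟩
  have ht0 : 0 < t := by rw [ht]; positivity
  have htc : t * cc = (1 - η) ^ 2 / (1 + η) * y ^ 2 := by
    rw [ht, hWF, hcc]
    have : (1 + η) ≠ 0 := by linarith
    field_simp
    rw [hWW]
  have htW : t ^ 2 * WF = t * cc := by
    rw [ht]
    field_simp
  have hfac1 : (1 - η) ^ 2 / (1 + η) ≤ 1 := by
    rw [div_le_one (by linarith)]
    nlinarith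
  have htcy : t * cc ≤ y ^ 2 := by
    rw [htc]
    nlinarith
  have htT : t ≤ T := by
    have h1 : t = (1 - η) / (1 + η) * (y * B / √W) := by
      rw [ht, hWF, hcc]
      have : (1 + η) ≠ 0 := by linarith
      nth_rewrite 2 [← hWW]
      field_simp
    have h2 : (1 - η) / (1 + η) ≤ 1 := by
      rw [div_le_one (by linarith)]
      linarith
    have h3 : y * B / √W ≤ T := by
      rw [div_le_iff₀ hsW]
      have h4 : √c * √K ≤ √W := by
        rw [← Real.sqrt_mul hc.le]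
        exact Real.sqrt_le_sqrt hW
      have h5 : δ * B ≤ T * √c := by rwa [le_div_iff₀ hB0] at hδ2
      calc y * B ≤ δ * √K * B := mul_le_mul_of_nonneg_right hyK hB0.le
        _ = (δ * B) * √K := by ring
        _ ≤ (T * √c) * √K := mul_le_mul_of_nonneg_right h5 (Real.sqrt_nonneg _)
        _ = T * (√c * √K) := by ring
        _ ≤ T * √W := mul_le_mul_of_nonneg_left h4 hT0.le
    rw [h1]
    calc (1 - η) / (1 + η) * (y * B / √W) ≤ 1 * (y * B / √W) := mul_le_mul_of_nonneg_right h2 (by positivity)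
      _ ≤ T := by rw [one_mul]; exact h3
  have hb1 := hch d (range (K / B + 1)) (Qb s K B q) (F s K B g) (fun j _ => h.Qb_pos B j)
    (fun i _ j _ hij => h.Qb_cop B hij) (fun j _ => h.F_per hB0n j) (fun j _ => h.F_bd hB0n j) WF
    (by
      rw [h.var_blk hB0n, hWF]
      exact div_le_div_of_nonneg_right hinn (by positivity)) t (y ^ 2) cc ht0 htT hy2 (by rw [htW]; exact htcy) hcc0.le htcy
    (Y ^ B) (by
      calc 2 ≤ Y := hY2
        _ ≤ Y ^ B := Nat.le_self_pow (by omega) Y) (fun j _ => Qb_le (by omega) hY hB0n j) (card_blocks hY2 hKY hB2) m L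
    (fun i => by
      refine le_trans (mul_le_mul_of_nonneg_left ?_ (by positivity)) (hL i)
      push_cast
      rw [← Real.rpow_natCast, ← Real.rpow_mul (by positivity)]
      refine Real.rpow_le_rpow_of_exponent_le hY1 ?_
      have : 0 ≤ 43 * ((s : ℝ) + 1) * y ^ 2 := by positivity
      linarith)
  have e1 : (fun ν : Fin d → ℤ => ∑ j ∈ range (K / B + 1), avg d (Qb s K B q j) (F s K B g j) + cc ≤
      ∑ j ∈ range (K / B + 1), F s K B g j ν) = fun ν => (1 - η) * y * √W ≤ ∑ k ∈ inn s K B, G s q g k ν := by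
    funext ν
    rw [F_sum h hB0n ν, add_le_add_iff_left, hcc, div_le_div_iff_of_pos_right hB0]
  rw [e1] at hb1
  have hexp1 : 4 * Real.exp (Real.exp (2 * T) * WF * t ^ 2 / 2 - t * cc) ≤ 4 * Real.exp (-((1 - e / 2) * (y ^ 2 / 2))) := by
    refine mul_le_mul_of_nonneg_left (Real.exp_le_exp.2 ?_) (by norm_num)
    have e2 : Real.exp (2 * T) * WF * t ^ 2 / 2 - t * cc = -((1 - η) * (t * cc) / 2) := by
      rw [hT2]
      have : (1 + η) * WF * t ^ 2 = (1 + η) * (t ^ 2 * WF) := by ring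
      rw [this, htW]
      ring
    rw [e2, htc]
    have h2 : (1 - e / 2) ≤ (1 - η) * ((1 - η) ^ 2 / (1 + η)) := by
      have e3 : 1 - e / 2 = 1 - 8 * η := by rw [hη]; ring
      rw [e3]
      exact ar1 hη0 hη1
    refine neg_le_neg ?_
    calc (1 - e / 2) * (y ^ 2 / 2) ≤ (1 - η) * ((1 - η) ^ 2 / (1 + η)) * (y ^ 2 / 2) :=
          mul_le_mul_of_nonneg_right h2 (by positivity)
      _ = (1 - η) * ((1 - η) ^ 2 / (1 + η) * y ^ 2) / 2 := by ring
  -- together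
  have hor : zprop m L (fun ν => y * √W ≤ ∑ k ∈ range K, G s q g k ν) ≤
      zprop m L (fun ν => (1 - η) * y * √W ≤ ∑ k ∈ inn s K B, G s q g k ν) +
        zprop m L (fun ν => y * (η * √W) ≤ |∑ k ∈ rem s K B, G s q g k ν|) := by
    refine zprop_or fun ν hν => ?_
    by_contra hcon
    push Not at hcon
    have h1 : ∑ k ∈ range K, G s q g k ν = ∑ k ∈ inn s K B, G s q g k ν + ∑ k ∈ rem s K B, G s q g k ν := by
      rw [← inn_rem s K B, sum_union (disj s K B)]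
    have h2 := le_abs_self (∑ k ∈ rem s K B, G s q g k ν)
    rw [h1] at hν
    have h3 := hcon.1
    have h4 := hcon.2
    have h5 : y * √W = (1 - η) * y * √W + y * (η * √W) := by ring
    linarith
  refine hor.trans ((add_le_add (hb1.trans hexp1) hr1).trans ?_)
  have h1 : Real.exp (-(20 * y ^ 2)) ≤ Real.exp (-((1 - e / 2) * (y ^ 2 / 2))) := Real.exp_le_exp.2 (ar5 he0 he1 hy2)
  have h2 : 4 * Real.exp (-((1 - e / 2) * (y ^ 2 / 2))) + Real.exp (-(20 * y ^ 2)) ≤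
      Real.exp 2 * Real.exp (-((1 - e / 2) * (y ^ 2 / 2))) := by
    have h3 := mul_le_mul_of_nonneg_right exp_two (Real.exp_pos (-((1 - e / 2) * (y ^ 2 / 2)))).le
    linarith
  refine h2.trans ?_
  rw [← Real.exp_add]
  exact Real.exp_le_exp.2 (ar3 he0 heε hyy)

/-- **Lower bound** for sums of functions of windows. -/
theorem lower_md (s : ℕ) (c ε : ℝ) (hc : 0 < c) (hε : 0 < ε) : ∃ y₀ δ A : ℝ, 1 ≤ y₀ ∧ 0 < δ ∧ 0 < A ∧
    ∀ (d K : ℕ) (q : ℕ → ℕ) (g : ℕ → (Fin d → ℤ) → ℝ), Dat d s K q g → (∀ k < K, ∀ ν, 0 ≤ g k ν) →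
      ∀ W : ℝ, c * K ≤ W → vr d s K q g (range K) = W → ∀ y : ℝ, y₀ ≤ y → y ≤ δ * √K →
      ∀ Y : ℕ, (∀ i < K + s, q i ≤ Y) → K ≤ Y → ∀ (m : Fin d → ℤ) (L : Fin d → ℕ),
        (∀ i, (d + 1) * (Y : ℝ) ^ (A * y ^ 2) ≤ L i) →
        Real.exp (-((1 + ε) * (y ^ 2 / 2))) ≤ zprop m L (fun ν => y * √W ≤ ∑ k ∈ range K, G s q g k ν) := by
  obtain ⟨e, he⟩ : ∃ e, e = min ε 1 := ⟨_, rfl⟩
  have he0 : 0 < e := by rw [he]; positivity
  have he1 : e ≤ 1 := by rw [he]; exact min_le_right _ _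
  have heε : e ≤ ε := by rw [he]; exact min_le_left _ _
  obtain ⟨η, hη⟩ : ∃ η, η = e / 64 := ⟨_, rfl⟩
  have hη0 : 0 < η := by rw [hη]; positivity
  have hη1 : η ≤ 1 / 64 := by rw [hη]; linarith
  obtain ⟨K₁, y₁, δ₁, hK₁, hy₁, hδ₁, hmd⟩ := mdp_z (e / 8) (by positivity)
  obtain ⟨C, hC, hrem⟩ := rem_tail s
  obtain ⟨B, hB⟩ := exists_nat_ge (128 * (s : ℝ) ^ 2 / (c * η ^ 2) + C / (c * η ^ 2) + 2)
  have hBa : 0 ≤ 128 * (s : ℝ) ^ 2 / (c * η ^ 2) := by positivity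
  have hBb : 0 ≤ C / (c * η ^ 2) := by positivity
  have hBr : (2 : ℝ) ≤ B := by linarith
  have hB2 : 2 ≤ B := by exact_mod_cast hBr
  have hB0 : (0 : ℝ) < B := by linarith
  have hB0n : 0 < B := by omega
  have hBs : 32 * (s : ℝ) ^ 2 ≤ B * (c * η ^ 2 / 4) := by
    have h1 : 128 * (s : ℝ) ^ 2 / (c * η ^ 2) ≤ B := by linarith
    rw [div_le_iff₀ (by positivity)] at h1
    linarith
  have hBC : C ≤ B * (c * η ^ 2) := by
    have h1 : C / (c * η ^ 2) ≤ B := by linarith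
    rw [div_le_iff₀ (by positivity)] at h1
    exact h1
  have hs0 : (0 : ℝ) ≤ s := Nat.cast_nonneg s
  obtain ⟨δ, hδ⟩ : ∃ δ : ℝ, δ = min (1 / (11 * (B : ℝ))) (δ₁ * √c / (4 * (B : ℝ))) := ⟨_, rfl⟩
  have hsc : 0 < √c := Real.sqrt_pos.2 hc
  have hδ0 : 0 < δ := by rw [hδ]; positivity
  have hδ1 : δ ≤ 1 / (11 * B) := by rw [hδ]; exact min_le_left _ _
  have hδ2 : δ ≤ δ₁ * √c / (4 * B) := by rw [hδ]; exact min_le_right _ _
  refine ⟨16 / e + 2 * y₁, δ, 4 * (B * K₁) + 43 * (s + 1), by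
    have : 16 ≤ 16 / e := by
      rw [le_div_iff₀ he0]
      linarith
    linarith, hδ0, by positivity, ?_⟩
  intro d K q g h h0 W hW hV y hy hyK Y hY hKY m L hL
  have h16e : 16 / e ≤ y := by linarith
  have hye : 16 ≤ y * e := by rwa [div_le_iff₀ he0] at h16e
  have hy1 : 16 ≤ y := ar11 he1 hye (by
    by_contra hcon
    push Not at hcon
    have : y * e ≤ 0 := mul_nonpos_of_nonpos_of_nonneg hcon.le he0.le
    linarith)
  have hy2 : 1 ≤ y ^ 2 := one_le_pow₀ (by linarith)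
  have hyy : 16 ≤ y ^ 2 * e := ar12 hye hy1
  have hyy1 : 2 * y₁ ≤ y := by
    have : 0 < 16 / e := by positivity
    linarith
  have hKs : y ^ 2 ≤ δ ^ 2 * K := by
    have h1 := pow_le_pow_left₀ (by linarith) hyK 2
    rw [mul_pow, Real.sq_sqrt (Nat.cast_nonneg K)] at h1
    exact h1
  have hKpos : (0 : ℝ) < K := by
    by_contra hcon
    push Not at hcon
    have : δ ^ 2 * K ≤ 0 := mul_nonpos_of_nonneg_of_nonpos (by positivity) hcon
    linarith
  have hyB : 21 * y ^ 2 * B ≤ K := ar13 hBr hδ0 hδ1 hKpos hKs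
  have hBK2 := ar14 hBr hy2 hyB hs0
  have hBK : B ≤ K := by exact_mod_cast hBK2.1
  have hY2 : 2 ≤ Y := by omega
  have hY1 : (1 : ℝ) ≤ Y := by exact_mod_cast (by omega : 1 ≤ Y)
  have hW0 : 0 < W := lt_of_lt_of_le (by positivity) hW
  have hsW : 0 < √W := Real.sqrt_pos.2 hW0
  have hWW : √W ^ 2 = W := Real.sq_sqrt hW0.le
  obtain ⟨VI, hVI⟩ : ∃ VI : ℝ, VI = vr d s K q g (inn s K B) := ⟨_, rfl⟩
  have hinn1 := (vr_inn h hB0n hBK hη0 (by linarith) hc hW hBs).1 hV.le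
  have hinn2 := (vr_inn h hB0n hBK hη0 (by linarith) hc hW hBs).2 hV
  rw [← hVI] at hinn1 hinn2
  have hVI0 : 0 < VI := by
    by_contra hcon
    push Not at hcon
    have : (1 + 2 * η) * VI ≤ 0 := mul_nonpos_of_nonneg_of_nonpos (by linarith) hcon
    linarith
  have hsI : 0 < √VI := Real.sqrt_pos.2 hVI0
  have hII : √VI ^ 2 = VI := Real.sq_sqrt hVI0.le
  -- the remaining windows
  have hr1 := hrem d K q g h h0 B hB0n hBK y (η ^ 2 * W) (by linarith) hBK2.2 (by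
      calc C * K ≤ B * (c * η ^ 2) * K := mul_le_mul_of_nonneg_right hBC hKpos.le
        _ = η ^ 2 * (c * K) * B := by ring
        _ ≤ η ^ 2 * W * B := by gcongr) Y hY2 hY hKY m L (fun i => by
      refine le_trans (mul_le_mul_of_nonneg_left (Real.rpow_le_rpow_of_exponent_le hY1 ?_) (by positivity)) (hL i)
      refine mul_le_mul_of_nonneg_right ?_ (by positivity)
      have : 0 ≤ 4 * (B * K₁) := by positivity
      linarith)
  have hsη : √(η ^ 2 * W) = η * √W := by rw [Real.sqrt_mul (sq_nonneg η), Real.sqrt_sq hη0.le]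
  rw [hsη] at hr1
  -- the blocks
  obtain ⟨z, hz⟩ : ∃ z, z = (1 + η) * y * (√W / √VI) := ⟨_, rfl⟩
  have hz0 : 0 < z := by rw [hz]; positivity
  have hzI : z * √VI = (1 + η) * y * √W := by
    rw [hz]
    field_simp
  have hz2 : z ^ 2 ≤ (1 + 8 * η) * y ^ 2 := by
    have h1 : z ^ 2 = (1 + η) ^ 2 * y ^ 2 * (W / VI) := by
      rw [hz, mul_pow, mul_pow, div_pow, hWW, hII]
    have h2 : W / VI ≤ 1 + 2 * η := by
      rw [div_le_iff₀ hVI0]
      exact hinn2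
    rw [h1]
    exact ar9 hη0 hη1 h2
  have hz4 : z ^ 2 ≤ 4 * y ^ 2 := by
    refine hz2.trans (mul_le_mul_of_nonneg_right ?_ (by positivity))
    linarith
  have hzy : z ≤ 2 * y := by
    refine le_of_sq_le_sq ?_ (by linarith)
    rw [mul_pow]
    linarith
  have hzy1 : y₁ ≤ z := by
    have h1 : 1 / 2 ≤ √W / √VI := by
      rw [le_div_iff₀ hsI]
      have h2 : √VI ≤ 2 * √W := by
        rw [Real.sqrt_le_left (by positivity), mul_pow, hWW]
        exact ar8 hinn1 hη1 hW0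
      linarith
    have h2 : (1 + η) * y * (1 / 2) ≤ z := by
      rw [hz]
      exact mul_le_mul_of_nonneg_left h1 (by positivity)
    exact ar2 hη0 (by linarith) hyy1 h2
  have hvar : ∑ j ∈ range (K / B + 1), (avg d (Qb s K B q j) (fun ν => F s K B g j ν ^ 2) -
      avg d (Qb s K B q j) (F s K B g j) ^ 2) = VI / (B : ℝ) ^ 2 := by
    rw [h.var_blk hB0n, hVI]
  have hsB : √(VI / (B : ℝ) ^ 2) = √VI / B := by
    rw [Real.sqrt_div hVI0.le, Real.sqrt_sq hB0.le]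
  have hzδ : z ≤ δ₁ * √(VI / (B : ℝ) ^ 2) := by
    rw [hsB]
    have h1 : √c * √K ≤ 2 * √VI := by
      rw [← Real.sqrt_mul hc.le, Real.sqrt_le_left (by positivity), mul_pow, hII]
      exact ar7 hW hinn2 hη1 hVI0
    have h5 : δ * (4 * B) ≤ δ₁ * √c := by rwa [le_div_iff₀ (by positivity)] at hδ2
    rw [← mul_div_assoc, le_div_iff₀ hB0]
    have h6 : z * B ≤ 2 * (δ * √K) * B := by
      refine mul_le_mul_of_nonneg_right ?_ hB0.le
      linarith
    have h7 : 2 * (δ * √K) * B * 2 ≤ δ₁ * √c * √K := by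
      calc 2 * (δ * √K) * B * 2 = δ * (4 * B) * √K := by ring
        _ ≤ _ := mul_le_mul_of_nonneg_right h5 (Real.sqrt_nonneg _)
    have h8 : δ₁ * √c * √K ≤ δ₁ * (2 * √VI) := by
      rw [mul_assoc]
      exact mul_le_mul_of_nonneg_left h1 hδ₁.le
    linarith
  have hb1 := (hmd d (range (K / B + 1)) (Qb s K B q) (F s K B g) (fun j _ => h.Qb_pos B j)
    (fun i _ j _ hij => h.Qb_cop B hij) (fun j _ => h.F_per hB0n j) (fun j _ => h.F_bd hB0n j) (VI / (B : ℝ) ^ 2) hvar.symm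
    z hzy1 hzδ
    (Y ^ B) (by
      calc 2 ≤ Y := hY2
        _ ≤ Y ^ B := Nat.le_self_pow (by omega) Y) (fun j _ => Qb_le (by omega) hY hB0n j) (card_blocks hY2 hKY hB2) m L
    (fun i => by
      refine le_trans (mul_le_mul_of_nonneg_left ?_ (by positivity)) (hL i)
      push_cast
      rw [← Real.rpow_natCast, ← Real.rpow_mul (by positivity)]
      refine Real.rpow_le_rpow_of_exponent_le hY1 ?_
      have h1 : (B : ℝ) * (K₁ * z ^ 2) ≤ B * (K₁ * (4 * y ^ 2)) := by gcongr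
      have h2 : 0 ≤ 43 * ((s : ℝ) + 1) * y ^ 2 := by positivity
      linarith)).1
  have e1 : (fun ν : Fin d → ℤ => ∑ j ∈ range (K / B + 1), avg d (Qb s K B q j) (F s K B g j) + z * √(VI / (B : ℝ) ^ 2) ≤
      ∑ j ∈ range (K / B + 1), F s K B g j ν) = fun ν => (1 + η) * y * √W ≤ ∑ k ∈ inn s K B, G s q g k ν := by
    funext ν
    rw [F_sum h hB0n ν, add_le_add_iff_left, hsB, ← mul_div_assoc, hzI, div_le_div_iff_of_pos_right hB0]
  rw [e1] at hb1
  -- together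
  have hor : zprop m L (fun ν => (1 + η) * y * √W ≤ ∑ k ∈ inn s K B, G s q g k ν) ≤
      zprop m L (fun ν => y * √W ≤ ∑ k ∈ range K, G s q g k ν) +
        zprop m L (fun ν => y * (η * √W) ≤ |∑ k ∈ rem s K B, G s q g k ν|) := by
    refine zprop_or fun ν hν => ?_
    by_contra hcon
    push Not at hcon
    have h1 : ∑ k ∈ range K, G s q g k ν = ∑ k ∈ inn s K B, G s q g k ν + ∑ k ∈ rem s K B, G s q g k ν := by
      rw [← inn_rem s K B, sum_union (disj s K B)]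
    have h2 := neg_abs_le (∑ k ∈ rem s K B, G s q g k ν)
    have h3 := hcon.1
    rw [h1] at h3
    have h4 := hcon.2
    have h5 : (1 + η) * y * √W = y * √W + y * (η * √W) := by ring
    linarith
  have h1 : Real.exp (-((1 + e / 2) * (y ^ 2 / 2))) ≤ Real.exp (-((1 + e / 8) * (z ^ 2 / 2))) :=
    Real.exp_le_exp.2 (ar10 he0 he1 hη hz2)
  have h2 : Real.exp (-(20 * y ^ 2)) ≤ 1 / 2 * Real.exp (-((1 + e / 2) * (y ^ 2 / 2))) := by
    have h3 : Real.exp (-1) ≤ 1 / 2 := by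
      rw [Real.exp_neg, ← one_div]
      refine one_div_le_one_div_of_le (by norm_num) ?_
      have := Real.add_one_le_exp (1 : ℝ)
      linarith
    calc Real.exp (-(20 * y ^ 2)) ≤ Real.exp (-1 + -((1 + e / 2) * (y ^ 2 / 2))) := Real.exp_le_exp.2 (ar6 he0 he1 hy2)
      _ ≤ _ := by
          rw [Real.exp_add]
          exact mul_le_mul_of_nonneg_right h3 (Real.exp_pos _).le
  have h3 : 1 / 2 * Real.exp (-((1 + e / 2) * (y ^ 2 / 2))) ≤ zprop m L (fun ν => y * √W ≤ ∑ k ∈ range K, G s q g k ν) := by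
    linarith
  refine le_trans ?_ h3
  have h4 : Real.exp (-1) ≤ 1 / 2 := by
    rw [Real.exp_neg, ← one_div]
    refine one_div_le_one_div_of_le (by norm_num) ?_
    have := Real.add_one_le_exp (1 : ℝ)
    linarith
  calc Real.exp (-((1 + ε) * (y ^ 2 / 2))) ≤ Real.exp (-1 + -((1 + e / 2) * (y ^ 2 / 2))) := Real.exp_le_exp.2 (ar4 he0 heε hyy)
    _ = Real.exp (-1) * Real.exp (-((1 + e / 2) * (y ^ 2 / 2))) := Real.exp_add _ _
    _ ≤ _ := mul_le_mul_of_nonneg_right h4 (Real.exp_pos _).le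

end Q69DL
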