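import Pool.Agent.Q69.DL.Corner3
import Pool.Agent.Q69.DL.Tail
import Pool.Agent.Q277.EB.Boxes

/-!
# Large deviations of the discrepancy
-/

set_option autoImplicit false
set_option linter.unusedSectionVars false

namespace Q69DL

open Finset Pool.Agent.Q255.EB
open Q282LT (avg zbox zprop ZPer card_zbox)
open Q285MD (wm tm vr Dat G avg_mono avg_add avg_smul avg_const avg_sum avg_dvd avg_abs)
open Pool.Agent.Q277.EB (gi gi_nonneg gi_le dat dev_eq conn_psi vert expand)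

/-- two sides -/
theorem upper_abs (s : ℕ) (c ε : ℝ) (hc : 0 < c) (hε : 0 < ε) : ∃ y₀ δ A : ℝ, 1 ≤ y₀ ∧ 0 < δ ∧ 0 < A ∧
    ∀ (d K : ℕ) (q : ℕ → ℕ) (g : ℕ → (Fin d → ℤ) → ℝ), Dat d s K q g → (∀ k < K, ∀ ν, 0 ≤ g k ν) →
      ∀ W : ℝ, c * K ≤ W → vr d s K q g (range K) ≤ W → ∀ y : ℝ, y₀ ≤ y → y ≤ δ * √K →
      ∀ Y : ℕ, (∀ i < K + s, q i ≤ Y) → K ≤ Y → ∀ (m : Fin d → ℤ) (L : Fin d → ℕ),
        (∀ i, (d + 1) * (Y : ℝ) ^ (A * y ^ 2) ≤ L i) →
        zprop m L (fun ν => y * √W ≤ |∑ k ∈ range K, G s q g k ν|) ≤ 2 * Real.exp (-((1 - ε) * (y ^ 2 / 2))) := by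
  obtain ⟨y₀, δ, A, hy₀, hδ, hA, h⟩ := upper_md s c ε hc hε
  refine ⟨y₀, δ, A, hy₀, hδ, hA, ?_⟩
  intro d K q g hD h0 W hW hV y hy hyK Y hY hKY m L hL
  have h1 := h d K q g hD h0 W hW hV y hy hyK Y hY hKY m L hL
  obtain ⟨g', hg'⟩ : ∃ g' : ℕ → (Fin d → ℤ) → ℝ, g' = fun k ν => 1 + (-1) * g k ν := ⟨_, rfl⟩
  have hD' : Dat d s K q g' := by
    refine ⟨hD.q1, hD.cop, ?_, ?_⟩
    · intro k hk ν ν' hν
      rw [hg']
      show 1 + (-1) * g k ν = 1 + (-1) * g k ν'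
      rw [hD.per k hk ν ν' hν]
    · intro k hk ν
      rw [hg', abs_le]
      have h2 := h0 k hk ν
      have h3 := (abs_le.1 (hD.bd k hk ν)).2
      constructor
      · show -1 ≤ 1 + (-1) * g k ν
        linarith
      · show 1 + (-1) * g k ν ≤ 1
        linarith
  have h0' : ∀ k < K, ∀ ν, 0 ≤ g' k ν := by
    intro k hk ν
    rw [hg']
    have h3 := (abs_le.1 (hD.bd k hk ν)).2
    show 0 ≤ 1 + (-1) * g k ν
    linarith
  have hG : ∀ k ∈ range K, ∀ ν, G s q g' k ν = -G s q g k ν := by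
    intro k hk ν
    have hw := hD.wm_pos (mem_range.1 hk)
    unfold Q285MD.G
    rw [hg']
    show 1 + (-1) * g k ν - avg d (wm q s k) (fun ν => 1 + (-1) * g k ν) = _
    rw [avg_add (fun _ => (1 : ℝ)) (fun ν => (-1) * g k ν), avg_const hw, avg_smul]
    ring
  have hS : ∀ ν, ∑ k ∈ range K, G s q g' k ν = -∑ k ∈ range K, G s q g k ν := by
    intro ν
    rw [← sum_neg_distrib]
    exact sum_congr rfl fun k hk => hG k hk ν
  have hV' : vr d s K q g' (range K) ≤ W := by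
    refine le_trans (le_of_eq ?_) hV
    unfold Q285MD.vr
    simp only [hS, neg_sq]
  have h2 := h d K q g' hD' h0' W hW hV' y hy hyK Y hY hKY m L hL
  have h3 : zprop m L (fun ν => y * √W ≤ |∑ k ∈ range K, G s q g k ν|) ≤
      zprop m L (fun ν => y * √W ≤ ∑ k ∈ range K, G s q g k ν) +
        zprop m L (fun ν => y * √W ≤ ∑ k ∈ range K, G s q g' k ν) := by
    refine zprop_or fun ν hν => ?_
    rcases le_abs.1 hν with h4 | h4
    · exact Or.inl h4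
    · right
      rw [hS]
      exact h4
  linarith

section

variable {d s K : ℕ} {q : ℕ → ℕ} {x : ℕ → (Fin d → ℤ) → ℝ}

/-- the deviation for a product of intervals as an alternating sum -/
theorem dev_sum (K' : ℕ) (hK' : K' ≤ K) (I : Fin s → Set ℝ) (t t' : Fin s → ℝ)
    (hI : ∀ i : Fin s, ∀ k < K + s, ∀ ν,
      (x k ν ∈ I i → Psi d (K + s) q x (t' i) (x k ν) + -Psi d (K + s) q x (t i) (x k ν) = 1) ∧
      (x k ν ∉ I i → Psi d (K + s) q x (t' i) (x k ν) + -Psi d (K + s) q x (t i) (x k ν) = 0))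
    (ν : Fin d → ℤ) : count x I K' ν - cmean q x I K' = ∑ S ∈ (univ : Finset (Fin s)).powerset,
      (-1) ^ (univ \ S).card * Zt (K + s) q x K' (vert t t' S) ν := by
  have hgi : ∀ k < K', ∀ ν, gi x I k ν =
      ∏ i : Fin s, (Psi d (K + s) q x (t' i) (x (k + i) ν) + -Psi d (K + s) q x (t i) (x (k + i) ν)) := by
    intro k hk ν
    unfold gi
    by_cases h1 : ∀ i : Fin s, x (k + i) ν ∈ I i
    · rw [if_pos h1]
      symm
      refine prod_eq_one fun i _ => ?_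
      exact (hI i (k + i) (by omega) ν).1 (h1 i)
    · rw [if_neg h1]
      push Not at h1
      obtain ⟨i, hi⟩ := h1
      symm
      exact prod_eq_zero (mem_univ i) ((hI i (k + i) (by omega) ν).2 hi)
  obtain ⟨F, hF⟩ : ∃ F : Finset (Fin s) → ℕ → (Fin d → ℤ) → ℝ, F = fun S k ν =>
    ∏ i : Fin s, Psi d (K + s) q x (vert t t' S i) (x (k + i) ν) := ⟨_, rfl⟩
  have hgi2 : ∀ k < K', gi x I k = fun ν => ∑ S ∈ (univ : Finset (Fin s)).powerset,
      (-1) ^ (univ \ S).card * F S k ν := by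
    intro k hk
    funext ν
    rw [hgi k hk ν, hF]
    exact expand (fun u i => Psi d (K + s) q x u (x (k + i) ν)) t t'
  rw [dev_eq]
  have h1 : ∀ k ∈ range K', Q285MD.G s q (gi x I) k ν =
      ∑ S ∈ (univ : Finset (Fin s)).powerset, (-1) ^ (univ \ S).card *
        (F S k ν - Q282LT.avg d (Q285MD.wm q s k) (F S k)) := by
    intro k hk
    unfold Q285MD.G
    rw [hgi2 k (mem_range.1 hk), Q285MD.avg_sum, ← sum_sub_distrib]
    refine sum_congr rfl fun S _ => ?_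
    rw [Q285MD.avg_smul]
    ring
  rw [sum_congr rfl h1, sum_comm]
  refine sum_congr rfl fun S _ => ?_
  rw [← mul_sum, hF]
  rfl

/-- the data of a box -/
structure Rep (K : ℕ) (q : ℕ → ℕ) (x : ℕ → (Fin d → ℤ) → ℝ) (I : Fin s → Set ℝ) (K' : ℕ) (t t' : Fin s → ℝ) : Prop where
  conn : ∀ i, (I i).OrdConnected
  le : K' ≤ K
  ht : ∀ i, 0 ≤ t i ∧ t i ≤ 1
  ht' : ∀ i, 0 ≤ t' i ∧ t' i ≤ 1
  hI : ∀ i : Fin s, ∀ k < K + s, ∀ ν,
      (x k ν ∈ I i → Psi d (K + s) q x (t' i) (x k ν) + -Psi d (K + s) q x (t i) (x k ν) = 1) ∧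
      (x k ν ∉ I i → Psi d (K + s) q x (t' i) (x k ν) + -Psi d (K + s) q x (t i) (x k ν) = 0)

lemma rep_exists (hK : 0 < K) (hF : Fam d (K + s) q x) (I : Fin s → Set ℝ) (hI : ∀ i, (I i).OrdConnected) (K' : ℕ) (hK' : K' ≤ K) :
    ∃ t t' : Fin s → ℝ, Rep K q x I K' t t' := by
  obtain ⟨hp1, hp2, hp3, hp4, hp5, hp6⟩ := Pool.Agent.Q124.EB.t_PSI d (K + s) q x (by omega) hF.q1 hF.per
  choose t t' ht ht' hpsi using fun i : Fin s => conn_psi hp3 hp5 hp6 (I i) (hI i)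
  exact ⟨t, t', hI, hK', ht, ht', hpsi⟩

/-- the deviations of two boxes of the same cell -/
lemma dev_close (hK : 0 < K) (hF : Fam d (K + s) q x) (J j₀ : ℕ) (B : ℝ)
    (ν : Fin d → ℤ) (h1 : ∀ i : Fin (s + 1) → ℕ, (∀ l, i l ≤ 2 ^ J) →
      |Zg K q x J ν i - Zg K q x J ν (fun l => 2 ^ (J - j₀) * (i l / 2 ^ (J - j₀)))| ≤ B)
    (h2 : ∀ (i i' : Fin (s + 1) → ℕ), (∀ l, i' l = i l ∨ i' l = i l + 1) → (∀ l, i' l ≤ 2 ^ J) →
      |Zg K q x J ν i' - Zg K q x J ν i| ≤ B)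
    (h3 : (s + 2) * (((K : ℝ) + s) / 2 ^ J) ≤ B) (h4 : (2 : ℝ) ^ J ≤ K + s)
    (I₁ I₂ : Fin s → Set ℝ) (K₁ K₂ : ℕ) (t₁ t₁' t₂ t₂' : Fin s → ℝ) (hr₁ : Rep K q x I₁ K₁ t₁ t₁') (hr₂ : Rep K q x I₂ K₂ t₂ t₂')
    (hc1 : ∀ i, cel J j₀ (t₁ i) = cel J j₀ (t₂ i)) (hc2 : ∀ i, cel J j₀ (t₁' i) = cel J j₀ (t₂' i))
    (hc3 : cel J j₀ ((K₁ : ℝ) / K) = cel J j₀ ((K₂ : ℝ) / K)) :
    |(count x I₁ K₁ ν - cmean q x I₁ K₁) - (count x I₂ K₂ ν - cmean q x I₂ K₂)| ≤ 2 ^ s * (6 * B) := by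
  rw [dev_sum K₁ hr₁.le I₁ t₁ t₁' hr₁.hI ν, dev_sum K₂ hr₂.le I₂ t₂ t₂' hr₂.hI ν, ← sum_sub_distrib]
  refine (abs_sum_le_sum_abs _ _).trans ?_
  have h5 : ∀ S ∈ (univ : Finset (Fin s)).powerset,
      |(-1) ^ (univ \ S).card * Zt (K + s) q x K₁ (vert t₁ t₁' S) ν -
        (-1) ^ (univ \ S).card * Zt (K + s) q x K₂ (vert t₂ t₂' S) ν| ≤ 6 * B := by
    intro S _
    rw [← mul_sub, abs_mul, abs_pow, abs_neg, abs_one, one_pow, one_mul]
    have n1 := near hK hF J j₀ B ν h1 h2 h3 h4 K₁ hr₁.le (vert t₁ t₁' S) (fun i => by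
      unfold vert
      split_ifs
      · exact hr₁.ht' i
      · exact hr₁.ht i) _ rfl
    have n2 := near hK hF J j₀ B ν h1 h2 h3 h4 K₂ hr₂.le (vert t₂ t₂' S) (fun i => by
      unfold vert
      split_ifs
      · exact hr₂.ht' i
      · exact hr₂.ht i) _ rfl
    have e : (fun l => 2 ^ (J - j₀) * cel J j₀ (Fin.snoc (α := fun _ => ℝ) (vert t₁ t₁' S) ((K₁ : ℝ) / K) l)) =
        fun l => 2 ^ (J - j₀) * cel J j₀ (Fin.snoc (α := fun _ => ℝ) (vert t₂ t₂' S) ((K₂ : ℝ) / K) l) := by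
      funext l
      congr 1
      rcases Fin.eq_castSucc_or_eq_last l with ⟨l0, rfl⟩ | rfl
      · rw [Fin.snoc_castSucc, Fin.snoc_castSucc]
        unfold vert
        split_ifs
        · exact hc2 l0
        · exact hc1 l0
      · rw [Fin.snoc_last, Fin.snoc_last]
        exact hc3
    rw [e] at n1
    obtain ⟨z, hz⟩ : ∃ z, z = Zg K q x J ν (fun l => 2 ^ (J - j₀) *
      cel J j₀ (Fin.snoc (α := fun _ => ℝ) (vert t₂ t₂' S) ((K₂ : ℝ) / K) l)) := ⟨_, rfl⟩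
    rw [← hz] at n1 n2
    rw [abs_le] at n1 n2 ⊢
    constructor <;> linarith [n1.1, n1.2, n2.1, n2.2]
  refine (sum_le_sum h5).trans ?_
  rw [sum_const, card_powerset, card_univ, Fintype.card_fin, nsmul_eq_mul]
  push_cast
  exact le_rfl

/-- the functions of a box and a length -/
lemma box_data (hF : Fam d (K + s) q x) (I : Fin s → Set ℝ) (K' : ℕ) (hK' : K' ≤ K) :
    Dat d s K q (rst (range K') (gi x I)) ∧ (∀ k < K, ∀ ν, 0 ≤ rst (range K') (gi x I) k ν) ∧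
      (∀ ν, ∑ k ∈ range K, G s q (rst (range K') (gi x I)) k ν = count x I K' ν - cmean q x I K') ∧
      vr d s K q (rst (range K') (gi x I)) (range K) = avg d (tm q (K + s)) (fun ν => (count x I K' ν - cmean q x I K') ^ 2) := by
  have hD := dat hF I
  have hS : ∀ ν, ∑ k ∈ range K, G s q (rst (range K') (gi x I)) k ν = count x I K' ν - cmean q x I K' := by
    intro ν
    rw [rst_G hD (range_subset_range.2 hK'), dev_eq]
  refine ⟨rst_dat hD _, rst_nonneg (fun k _ ν => gi_nonneg x I k ν) _, hS, ?_⟩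
  unfold Q285MD.vr
  simp only [hS]

end

end Q69DL
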