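import Pool.Agent.Q69.DL.Main

/-!
# Large deviations of the discrepancy: the two bounds
-/

set_option autoImplicit false
set_option linter.unusedSectionVars false

namespace Q69DL

open Finset Pool.Agent.Q255.EB
open Q282LT (avg zbox zprop ZPer card_zbox)
open Q285MD (wm tm vr Dat G avg_mono avg_add avg_smul avg_const avg_sum avg_dvd avg_abs)
open Pool.Agent.Q277.EB (gi gi_nonneg gi_le dat dev_eq conn_psi vert expand)

lemma br1 {e κ y : ℝ} (h0 : 0 < e) (h1 : e ≤ 1) (hκ : κ = e / 16) :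
    -((1 - e / 4) * (((1 - κ) * y) ^ 2 / 2)) ≤ -((1 - e / 2) * (y ^ 2 / 2)) := by
  have h2 : 1 - e / 2 ≤ (1 - e / 4) * (1 - κ) ^ 2 := by
    have h3 : 1 - e / 8 ≤ (1 - κ) ^ 2 := by
      rw [hκ]
      nlinarith [sq_nonneg e]
    have h4 : (1 - e / 4) * (1 - e / 8) ≤ (1 - e / 4) * (1 - κ) ^ 2 := mul_le_mul_of_nonneg_left h3 (by linarith)
    have h5 : (1 - e / 4) * (1 - e / 8) = 1 - 3 / 8 * e + e ^ 2 / 32 := by ring
    have h6 : 0 ≤ e ^ 2 / 32 := by positivity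
    linarith
  have h3 := mul_le_mul_of_nonneg_right h2 (by positivity : 0 ≤ y ^ 2 / 2)
  have e1 : (1 - e / 4) * (((1 - κ) * y) ^ 2 / 2) = (1 - e / 4) * (1 - κ) ^ 2 * (y ^ 2 / 2) := by ring
  rw [e1]
  linarith

lemma br2 {e ε y l : ℝ} (_h0 : 0 < e) (hε : e ≤ ε) (hl : l ≤ e / 4 * y ^ 2) :
    l + -((1 - e / 2) * (y ^ 2 / 2)) ≤ -((1 - ε) * (y ^ 2 / 2)) := by
  have h3 : e * (y ^ 2 / 2) ≤ ε * (y ^ 2 / 2) := mul_le_mul_of_nonneg_right hε (by positivity)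
  nlinarith

lemma zprop_le {d : ℕ} {m : Fin d → ℤ} {L : Fin d → ℕ} {P : (Fin d → ℤ) → Prop} (hP : 0 < ∏ i, (L i : ℝ))
    (S : Finset (Fin d → ℤ)) {c : ℝ} (h : ∀ ν ∈ zbox m L, P ν → ν ∈ S) (hc : (S.card : ℝ) ≤ c * ∏ i, (L i : ℝ)) :
    zprop m L P ≤ c := by
  classical
  unfold zprop
  rw [div_le_iff₀ hP]
  refine le_trans ?_ hc
  have : ((zbox m L).filter P) ⊆ S := by
    intro ν hν
    rw [mem_filter] at hν
    exact h ν hν.1 hν.2
  exact_mod_cast card_le_card this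

/-- the upper bound -/
theorem main_upper (s : ℕ) (c ε : ℝ) (hc : 0 < c) (hε : 0 < ε) : ∃ y₀ δ A : ℝ, 1 ≤ y₀ ∧ 0 < δ ∧ 0 < A ∧
    ∀ (d K : ℕ) (q : ℕ → ℕ) (x : ℕ → (Fin d → ℤ) → ℝ), Fam d (K + s) q x → ∀ W : ℝ, c * K ≤ W →
      (∀ K' ≤ K, ∀ I : Fin s → Set ℝ, (∀ i, (I i).OrdConnected) →
        avg d (tm q (K + s)) (fun ν => (count x I K' ν - cmean q x I K') ^ 2) ≤ W) →
      ∀ y : ℝ, y₀ ≤ y → y ≤ δ * √K →
      ∀ Y : ℕ, (∀ i < K + s, q i ≤ Y) → K ≤ Y → ∀ (m : Fin d → ℤ) (L : Fin d → ℕ),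
        (∀ i, (d + 1) * (Y : ℝ) ^ (A * y ^ 2) ≤ L i) →
        zprop m L (fun ν => ∃ K' ≤ K, ∃ I : Fin s → Set ℝ, (∀ i, (I i).OrdConnected) ∧
          y * √W ≤ |count x I K' ν - cmean q x I K'|) ≤ Real.exp (-((1 - ε) * (y ^ 2 / 2))) := by
  classical
  obtain ⟨e, he⟩ : ∃ e, e = min ε 1 := ⟨_, rfl⟩
  have he0 : 0 < e := by rw [he]; positivity
  have he1 : e ≤ 1 := by rw [he]; exact min_le_right _ _
  have heε : e ≤ ε := by rw [he]; exact min_le_left _ _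
  obtain ⟨κ, hκ⟩ : ∃ κ, κ = e / 16 := ⟨_, rfl⟩
  have hκ0 : 0 < κ := by rw [hκ]; positivity
  have hκ1 : κ ≤ 1 / 16 := by rw [hκ]; linarith
  have hsc : 0 < √c := Real.sqrt_pos.2 hc
  obtain ⟨η, hη⟩ : ∃ η : ℝ, η = min 1 (κ * √c / 2 ^ s) := ⟨_, rfl⟩
  have hη0 : 0 < η := by rw [hη]; positivity
  have hη1 : η ≤ 1 := by rw [hη]; exact min_le_left _ _
  have hη2 : η * 2 ^ s ≤ κ * √c := by
    have h1 : η ≤ κ * √c / 2 ^ s := by rw [hη]; exact min_le_right _ _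
    rwa [le_div_iff₀ (by positivity)] at h1
  obtain ⟨y₁, δ₁, A₁, hy₁, hδ₁, hA₁, hup⟩ := upper_abs s c (e / 4) hc (by positivity)
  obtain ⟨j₀, δ₂, A₂, hδ₂, hA₂, hgr⟩ := grid_set s η hη0 hη1
  obtain ⟨M, hM⟩ : ∃ M : ℕ, M = 2 ^ j₀ + 1 := ⟨_, rfl⟩
  obtain ⟨Nc, hNc⟩ : ∃ Nc : ℝ, Nc = (Fintype.card ((Fin s → Fin M) × (Fin s → Fin M) × Fin M) : ℝ) := ⟨_, rfl⟩
  have hNc0 : 0 ≤ Nc := by rw [hNc]; positivity
  obtain ⟨l, hl⟩ : ∃ l : ℝ, l = Real.log (2 * Nc + 1) := ⟨_, rfl⟩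
  have hl0 : 0 ≤ l := by rw [hl]; exact Real.log_nonneg (by linarith)
  have hle : 2 * Nc + 1 = Real.exp l := by rw [hl, Real.exp_log (by linarith)]
  refine ⟨4 * l / e + 2 * y₁, min δ₁ δ₂, A₁ + A₂, by
    have : 0 ≤ 4 * l / e := by positivity
    linarith, by positivity, by positivity, ?_⟩
  intro d K q x hF W hW hV y hy hyK Y hY hKY m L hL
  have hly : 0 ≤ 4 * l / e := by positivity
  have hyy1 : 2 * y₁ ≤ y := by linarith
  have hy1 : 1 ≤ y := by linarith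
  have hy2 : 1 ≤ y ^ 2 := one_le_pow₀ hy1
  have hlY : l ≤ e / 4 * y ^ 2 := by
    have h1 : 4 * l / e ≤ y := by linarith
    rw [div_le_iff₀ he0] at h1
    have h2 : y * 1 ≤ y * y := mul_le_mul_of_nonneg_left hy1 (by linarith)
    have h3 : y * e ≤ y ^ 2 * e := mul_le_mul_of_nonneg_right (by linarith [sq y]) he0.le
    linarith
  have hsK0 : 0 ≤ √(K : ℝ) := Real.sqrt_nonneg _
  have hyK1 : y ≤ δ₁ * √K := hyK.trans (mul_le_mul_of_nonneg_right (min_le_left _ _) hsK0)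
  have hyK2 : y ≤ δ₂ * √K := hyK.trans (mul_le_mul_of_nonneg_right (min_le_right _ _) hsK0)
  have hK : 0 < K := by
    rcases Nat.eq_zero_or_pos K with h | h
    · exfalso
      rw [h, Nat.cast_zero, Real.sqrt_zero, mul_zero] at hyK1
      linarith
    · exact h
  have hK0 : (0 : ℝ) < K := by exact_mod_cast hK
  have hY1 : (1 : ℝ) ≤ Y := by exact_mod_cast le_trans hK hKY
  have hW0 : 0 < W := lt_of_lt_of_le (by positivity) hW
  have hLpos : ∀ i, (0 : ℝ) < L i := fun i => lt_of_lt_of_le (by positivity) (hL i)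
  have hP0 : 0 < ∏ i, (L i : ℝ) := prod_pos fun i _ => hLpos i
  have hL1 : ∀ i, (d + 1) * (Y : ℝ) ^ (A₁ * ((1 - κ) * y) ^ 2) ≤ L i := by
    intro i
    refine le_trans (mul_le_mul_of_nonneg_left (Real.rpow_le_rpow_of_exponent_le hY1 ?_) (by positivity)) (hL i)
    have h1 : ((1 - κ) * y) ^ 2 ≤ y ^ 2 := by
      rw [mul_pow]
      have h2 : (1 - κ) ^ 2 ≤ 1 := by nlinarith
      calc (1 - κ) ^ 2 * y ^ 2 ≤ 1 * y ^ 2 := mul_le_mul_of_nonneg_right h2 (by positivity)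
        _ = y ^ 2 := one_mul _
    have h2 : A₁ * ((1 - κ) * y) ^ 2 ≤ A₁ * y ^ 2 := mul_le_mul_of_nonneg_left h1 hA₁.le
    have h3 : 0 ≤ A₂ * y ^ 2 := by positivity
    linarith
  have hL2 : ∀ i, (d + 1) * (Y : ℝ) ^ (A₂ * y ^ 2) ≤ L i := by
    intro i
    refine le_trans (mul_le_mul_of_nonneg_left (Real.rpow_le_rpow_of_exponent_le hY1 ?_) (by positivity)) (hL i)
    have h3 : 0 ≤ A₁ * y ^ 2 := by positivity
    linarith
  obtain ⟨J, T, hJ, hTS, hTc, hJ3, hJ4, hT⟩ := hgr d K q x hK hF y hy1 hyK2 Y hY hKY m L hL2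
  obtain ⟨B, hB⟩ : ∃ B, B = η * y * √K / 8 := ⟨_, rfl⟩
  have hB0 : 0 ≤ B := by rw [hB]; positivity
  have hclose : 2 ^ s * (6 * B) ≤ κ * y * √W := by
    have h1 : √c * √K ≤ √W := by
      rw [← Real.sqrt_mul hc.le]
      exact Real.sqrt_le_sqrt hW
    calc (2 : ℝ) ^ s * (6 * B) = 6 / 8 * (η * 2 ^ s) * (y * √K) := by rw [hB]; ring
      _ ≤ 6 / 8 * (κ * √c) * (y * √K) := by gcongr
      _ = 6 / 8 * (κ * y * (√c * √K)) := by ring
      _ ≤ 6 / 8 * (κ * y * √W) := by gcongr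
      _ ≤ κ * y * √W := by
          have : 0 ≤ κ * y * √W := by positivity
          linarith
  -- the exceptional sets of the cells
  let Q : ((Fin s → Fin M) × (Fin s → Fin M) × Fin M) → ((Fin s → Set ℝ) × ℕ × (Fin s → ℝ) × (Fin s → ℝ)) → Prop :=
    fun cc τ => Rep K q x τ.1 τ.2.1 τ.2.2.1 τ.2.2.2 ∧ (∀ i, cel J j₀ (τ.2.2.1 i) = cc.1 i) ∧
      (∀ i, cel J j₀ (τ.2.2.2 i) = cc.2.1 i) ∧ cel J j₀ ((τ.2.1 : ℝ) / K) = cc.2.2
  let Bad : ((Fin s → Fin M) × (Fin s → Fin M) × Fin M) → Finset (Fin d → ℤ) := fun cc =>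
    if h : ∃ τ, Q cc τ then (zbox m L).filter (fun ν => (1 - κ) * y * √W ≤
      |count x h.choose.1 h.choose.2.1 ν - cmean q x h.choose.1 h.choose.2.1|) else ∅
  have hBad : ∀ cc, ((Bad cc).card : ℝ) ≤ 2 * Real.exp (-((1 - e / 2) * (y ^ 2 / 2))) * ∏ i, (L i : ℝ) := by
    intro cc
    by_cases h : ∃ τ, Q cc τ
    · have hr := h.choose_spec.1
      obtain ⟨I', hI'⟩ : ∃ I', I' = h.choose.1 := ⟨_, rfl⟩
      obtain ⟨K', hK'⟩ : ∃ K', K' = h.choose.2.1 := ⟨_, rfl⟩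
      have hBc : Bad cc = (zbox m L).filter (fun ν => (1 - κ) * y * √W ≤ |count x I' K' ν - cmean q x I' K'|) := by
        rw [hI', hK']
        exact dif_pos h
      rw [hBc]
      rw [← hI', ← hK'] at hr
      obtain ⟨b1, b2, b3, b4⟩ := box_data hF I' K' hr.le
      have h1 := hup d K q _ b1 b2 W hW (by rw [b4]; exact hV K' hr.le I' hr.conn) ((1 - κ) * y) (by nlinarith) (by
        refine le_trans ?_ hyK1
        nlinarith) Y hY hKY m L hL1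
      simp only [b3] at h1
      unfold zprop at h1
      rw [div_le_iff₀ hP0] at h1
      refine h1.trans (mul_le_mul_of_nonneg_right ?_ hP0.le)
      exact mul_le_mul_of_nonneg_left (Real.exp_le_exp.2 (br1 he0 he1 hκ)) (by norm_num)
    · have hBc : Bad cc = ∅ := dif_neg h
      rw [hBc, card_empty, Nat.cast_zero]
      positivity
  have hsub : ∀ ν ∈ zbox m L, (∃ K' ≤ K, ∃ I : Fin s → Set ℝ, (∀ i, (I i).OrdConnected) ∧
      y * √W ≤ |count x I K' ν - cmean q x I K'|) → ν ∈ T ∪ univ.biUnion Bad := by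
    intro ν hνb hν
    obtain ⟨K', hK', I, hI, hdev⟩ := hν
    rw [mem_union]
    by_cases hνT : ν ∈ T
    · exact Or.inl hνT
    right
    obtain ⟨hT1, hT2⟩ := hT ν hνb hνT
    obtain ⟨t, t', hr⟩ := rep_exists hK hF I hI K' hK'
    have hcl : ∀ u : ℝ, u ≤ 1 → cel J j₀ u < M := by
      intro u hu
      have := cel_le (j₀ := j₀) (J := J) hJ.le hu
      omega
    have hK'1 : (K' : ℝ) / K ≤ 1 := by
      rw [div_le_one hK0]
      exact_mod_cast hK'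
    obtain ⟨cc, hcc⟩ : ∃ cc : (Fin s → Fin M) × (Fin s → Fin M) × Fin M, cc =
      (fun i => ⟨cel J j₀ (t i), hcl _ (hr.ht i).2⟩, fun i => ⟨cel J j₀ (t' i), hcl _ (hr.ht' i).2⟩,
        ⟨cel J j₀ ((K' : ℝ) / K), hcl _ hK'1⟩) := ⟨_, rfl⟩
    have hQ : Q cc (I, K', t, t') := by
      rw [hcc]
      exact ⟨hr, fun _ => rfl, fun _ => rfl, rfl⟩
    have h : ∃ τ, Q cc τ := ⟨_, hQ⟩
    obtain ⟨hr2, g1, g2, g3⟩ := h.choose_spec
    rw [mem_biUnion]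
    refine ⟨cc, mem_univ _, ?_⟩
    have hBc : Bad cc = (zbox m L).filter (fun ν => (1 - κ) * y * √W ≤
      |count x h.choose.1 h.choose.2.1 ν - cmean q x h.choose.1 h.choose.2.1|) := dif_pos h
    rw [hBc, mem_filter]
    refine ⟨hνb, ?_⟩
    have h5 := dev_close hK hF J j₀ B ν (by rw [hB]; exact hT1) (by rw [hB]; exact hT2)
      (by
        rw [hB, le_div_iff₀ (by norm_num)]
        linarith) hJ4 I h.choose.1 K' h.choose.2.1 t t' h.choose.2.2.1 h.choose.2.2.2 hr hr2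
      (fun i => by rw [hQ.2.1 i, g1 i]) (fun i => by rw [hQ.2.2.1 i, g2 i]) (by rw [hQ.2.2.2, g3])
    obtain ⟨D₂, hD₂⟩ : ∃ D₂, D₂ = count x h.choose.1 h.choose.2.1 ν - cmean q x h.choose.1 h.choose.2.1 := ⟨_, rfl⟩
    obtain ⟨D₁, hD₁⟩ : ∃ D₁, D₁ = count x I K' ν - cmean q x I K' := ⟨_, rfl⟩
    rw [← hD₁, ← hD₂] at h5
    rw [← hD₁] at hdev
    rw [← hD₂]
    have h6 : |D₁| ≤ |D₁ - D₂| + |D₂| := by
      have := abs_add_le (D₁ - D₂) D₂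
      rwa [sub_add_cancel] at this
    have h7 := h5.trans hclose
    have e7 : (1 - κ) * y * √W = y * √W - κ * y * √W := by ring
    rw [e7]
    linarith
  refine zprop_le hP0 _ hsub ?_
  have h1 : (((T ∪ univ.biUnion Bad).card : ℕ) : ℝ) ≤ T.card + ∑ cc, ((Bad cc).card : ℝ) := by
    have h2 : (T ∪ univ.biUnion Bad).card ≤ T.card + ∑ cc, (Bad cc).card :=
      (card_union_le _ _).trans (Nat.add_le_add_left card_biUnion_le _)
    exact_mod_cast h2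
  refine h1.trans ?_
  have h2 : ∑ cc, ((Bad cc).card : ℝ) ≤ Nc * (2 * Real.exp (-((1 - e / 2) * (y ^ 2 / 2))) * ∏ i, (L i : ℝ)) := by
    refine (sum_le_sum fun cc _ => hBad cc).trans (le_of_eq ?_)
    rw [sum_const, card_univ, nsmul_eq_mul, hNc]
  have h3 : (T.card : ℝ) ≤ Real.exp (-((1 - e / 2) * (y ^ 2 / 2))) * ∏ i, (L i : ℝ) := by
    refine hTc.trans (mul_le_mul_of_nonneg_right (Real.exp_le_exp.2 (ar5 he0 he1 hy2)) hP0.le)
  calc (T.card : ℝ) + ∑ cc, ((Bad cc).card : ℝ) ≤ Real.exp (-((1 - e / 2) * (y ^ 2 / 2))) * ∏ i, (L i : ℝ) +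
        Nc * (2 * Real.exp (-((1 - e / 2) * (y ^ 2 / 2))) * ∏ i, (L i : ℝ)) := add_le_add h3 h2
    _ = (2 * Nc + 1) * Real.exp (-((1 - e / 2) * (y ^ 2 / 2))) * ∏ i, (L i : ℝ) := by ring
    _ ≤ Real.exp (-((1 - ε) * (y ^ 2 / 2))) * ∏ i, (L i : ℝ) := by
        refine mul_le_mul_of_nonneg_right ?_ hP0.le
        rw [hle, ← Real.exp_add]
        exact Real.exp_le_exp.2 (br2 he0 heε hlY)

lemma br3 {e ε κ y z : ℝ} (h0 : 0 < e) (h1 : e ≤ 1) (hε : e ≤ ε) (hκ : κ = e / 16) (hz : z ^ 2 ≤ (1 + κ) ^ 2 * y ^ 2) :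
    -((1 + ε) * (y ^ 2 / 2)) ≤ -((1 + e / 4) * (z ^ 2 / 2)) := by
  have h2 : (1 + e / 4) * (1 + κ) ^ 2 ≤ 1 + e := by
    have he2 : e ^ 2 ≤ e := by
      rw [sq]
      calc e * e ≤ 1 * e := mul_le_mul_of_nonneg_right h1 h0.le
        _ = e := one_mul e
    have h3 : (1 + κ) ^ 2 ≤ 1 + e / 4 := by
      rw [hκ]
      have h4 : (1 + e / 16) ^ 2 = 1 + e / 8 + e ^ 2 / 256 := by ring
      rw [h4]
      linarith
    have h4 : (1 + e / 4) * (1 + κ) ^ 2 ≤ (1 + e / 4) * (1 + e / 4) := mul_le_mul_of_nonneg_left h3 (by linarith)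
    have h5 : (1 + e / 4) * (1 + e / 4) = 1 + e / 2 + e ^ 2 / 16 := by ring
    linarith
  have h3 : (1 + e / 4) * z ^ 2 ≤ (1 + e / 4) * ((1 + κ) ^ 2 * y ^ 2) := mul_le_mul_of_nonneg_left hz (by positivity)
  have h4 := mul_le_mul_of_nonneg_right h2 (by positivity : 0 ≤ y ^ 2)
  have h5 : e * y ^ 2 ≤ ε * y ^ 2 := mul_le_mul_of_nonneg_right hε (by positivity)
  linarith

/-- the lower bound -/
theorem main_lower (s : ℕ) (c ε : ℝ) (hc : 0 < c) (hε : 0 < ε) : ∃ y₀ δ A : ℝ, 1 ≤ y₀ ∧ 0 < δ ∧ 0 < A ∧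
    ∀ (d K : ℕ) (q : ℕ → ℕ) (x : ℕ → (Fin d → ℤ) → ℝ), Fam d (K + s) q x → ∀ W : ℝ, c * K ≤ W →
      (∀ K' ≤ K, ∀ I : Fin s → Set ℝ, (∀ i, (I i).OrdConnected) →
        avg d (tm q (K + s)) (fun ν => (count x I K' ν - cmean q x I K') ^ 2) ≤ W) →
      (∀ b < W, ∃ K' ≤ K, ∃ I : Fin s → Set ℝ, (∀ i, (I i).OrdConnected) ∧
        b < avg d (tm q (K + s)) (fun ν => (count x I K' ν - cmean q x I K') ^ 2)) →
      ∀ y : ℝ, y₀ ≤ y → y ≤ δ * √K →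
      ∀ Y : ℕ, (∀ i < K + s, q i ≤ Y) → K ≤ Y → ∀ (m : Fin d → ℤ) (L : Fin d → ℕ),
        (∀ i, (d + 1) * (Y : ℝ) ^ (A * y ^ 2) ≤ L i) →
        Real.exp (-((1 + ε) * (y ^ 2 / 2))) ≤
          zprop m L (fun ν => ∃ K' ≤ K, ∃ I : Fin s → Set ℝ, (∀ i, (I i).OrdConnected) ∧
          y * √W ≤ |count x I K' ν - cmean q x I K'|) := by
  obtain ⟨e, he⟩ : ∃ e, e = min ε 1 := ⟨_, rfl⟩
  have he0 : 0 < e := by rw [he]; positivity
  have he1 : e ≤ 1 := by rw [he]; exact min_le_right _ _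
  have heε : e ≤ ε := by rw [he]; exact min_le_left _ _
  obtain ⟨κ, hκ⟩ : ∃ κ, κ = e / 16 := ⟨_, rfl⟩
  have hκ0 : 0 < κ := by rw [hκ]; positivity
  have hκ1 : κ ≤ 1 / 16 := by rw [hκ]; linarith
  obtain ⟨y₁, δ₁, A₁, hy₁, hδ₁, hA₁, hlo⟩ := lower_md s (c / 4) (e / 4) (by positivity) (by positivity)
  refine ⟨y₁, δ₁ / 2, 4 * A₁, hy₁, by positivity, by positivity, ?_⟩
  intro d K q x hF W hW hV hsup y hy hyK Y hY hKY m L hL
  have hy1 : 1 ≤ y := hy₁.trans hy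
  have hK : 0 < K := by
    rcases Nat.eq_zero_or_pos K with h | h
    · exfalso
      rw [h, Nat.cast_zero, Real.sqrt_zero, mul_zero] at hyK
      linarith
    · exact h
  have hK0 : (0 : ℝ) < K := by exact_mod_cast hK
  have hY1 : (1 : ℝ) ≤ Y := by exact_mod_cast le_trans hK hKY
  have hW0 : 0 < W := lt_of_lt_of_le (by positivity) hW
  have hsW : 0 < √W := Real.sqrt_pos.2 hW0
  have hWW : √W ^ 2 = W := Real.sq_sqrt hW0.le
  have h1κ : 1 < (1 + κ) ^ 2 := by nlinarith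
  obtain ⟨K', hK', I, hI, hb⟩ := hsup (W / (1 + κ) ^ 2) (div_lt_self hW0 h1κ)
  obtain ⟨b1, b2, b3, b4⟩ := box_data hF I K' hK'
  obtain ⟨V, hVd⟩ : ∃ V, V = avg d (tm q (K + s)) (fun ν => (count x I K' ν - cmean q x I K') ^ 2) := ⟨_, rfl⟩
  have hVW := hV K' hK' I hI
  rw [← hVd] at hb hVW b4
  have hV0 : 0 < V := lt_trans (by positivity) hb
  have hsV : 0 < √V := Real.sqrt_pos.2 hV0
  have hVV : √V ^ 2 = V := Real.sq_sqrt hV0.le
  rw [div_lt_iff₀ (by positivity)] at hb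
  have hκ4 : (1 + κ) ^ 2 ≤ 4 := by nlinarith
  have hcV : c / 4 * K ≤ V := by
    have h1 : V * (1 + κ) ^ 2 ≤ V * 4 := mul_le_mul_of_nonneg_left hκ4 hV0.le
    linarith
  obtain ⟨z, hz⟩ : ∃ z, z = y * (√W / √V) := ⟨_, rfl⟩
  have hzV : z * √V = y * √W := by
    rw [hz]
    field_simp
  have hrat : 1 ≤ √W / √V := by
    rw [one_le_div hsV]
    exact Real.sqrt_le_sqrt hVW
  have hzy : y ≤ z := by
    rw [hz]
    exact le_mul_of_one_le_right (by linarith) hrat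
  have hz2 : z ^ 2 ≤ (1 + κ) ^ 2 * y ^ 2 := by
    have h1 : z ^ 2 = y ^ 2 * (W / V) := by
      rw [hz, mul_pow, div_pow, hWW, hVV]
    have h2 : W / V ≤ (1 + κ) ^ 2 := by
      rw [div_le_iff₀ hV0]
      linarith
    rw [h1, mul_comm]
    exact mul_le_mul_of_nonneg_right h2 (by positivity)
  have hz3 : z ^ 2 ≤ 4 * y ^ 2 := hz2.trans (mul_le_mul_of_nonneg_right hκ4 (by positivity))
  have hz4 : z ≤ 2 * y := by
    have h1 : z ^ 2 ≤ (2 * y) ^ 2 := by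
      rw [mul_pow]
      linarith
    exact (pow_le_pow_iff_left₀ (by linarith) (by linarith) (by norm_num)).1 h1
  have h1 := hlo d K q _ b1 b2 V hcV b4 z (hy.trans hzy) (by linarith) Y hY hKY m L (fun i => by
    refine le_trans (mul_le_mul_of_nonneg_left (Real.rpow_le_rpow_of_exponent_le hY1 ?_) (by positivity)) (hL i)
    have h2 : A₁ * z ^ 2 ≤ A₁ * (4 * y ^ 2) := mul_le_mul_of_nonneg_left hz3 hA₁.le
    linarith)
  simp only [b3, hzV] at h1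
  refine (Real.exp_le_exp.2 (br3 he0 he1 heε hκ hz2)).trans (h1.trans ?_)
  refine zprop_mono fun ν hν => ?_
  exact ⟨K', hK', I, hI, hν.trans (le_abs_self _)⟩

end Q69DL
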