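import Pool.Agent.Q69.DL.Chern
import Pool.Agent.Q69.DL.Mom
import Pool.Agent.Q285.MD.Blk

/-!
# Large deviations of sums of functions of windows
-/

set_option autoImplicit false
set_option linter.unusedSectionVars false

namespace Q69DL

open Finset
open Q282LT (zbox zprop avg ZPer)
open Q285MD
open Q69CR (mdp_z)

variable {d s K : ℕ} {q : ℕ → ℕ} {g : ℕ → (Fin d → ℤ) → ℝ}

lemma zprop_nonneg (m : Fin d → ℤ) (L : Fin d → ℕ) (P : (Fin d → ℤ) → Prop) : 0 ≤ zprop m L P := by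
  unfold zprop
  positivity

lemma zprop_mono {m : Fin d → ℤ} {L : Fin d → ℕ} {P P' : (Fin d → ℤ) → Prop} (h : ∀ ν, P ν → P' ν) :
    zprop m L P ≤ zprop m L P' := by
  classical
  unfold zprop
  refine div_le_div_of_nonneg_right ?_ (prod_nonneg fun i _ => Nat.cast_nonneg _)
  have : ((zbox m L).filter P) ⊆ (zbox m L).filter P' := by
    intro n hn
    rw [mem_filter] at hn ⊢
    exact ⟨hn.1, h _ hn.2⟩
  exact_mod_cast card_le_card this

lemma zprop_or {m : Fin d → ℤ} {L : Fin d → ℕ} {P Q R : (Fin d → ℤ) → Prop} (h : ∀ ν, P ν → Q ν ∨ R ν) :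
    zprop m L P ≤ zprop m L Q + zprop m L R := by
  classical
  unfold zprop
  rw [← add_div]
  refine div_le_div_of_nonneg_right ?_ (prod_nonneg fun i _ => Nat.cast_nonneg _)
  have h1 : ((zbox m L).filter P) ⊆ (zbox m L).filter Q ∪ (zbox m L).filter R := by
    intro n hn
    rw [mem_filter] at hn
    rw [mem_union, mem_filter, mem_filter]
    rcases h _ hn.2 with h2 | h2
    · exact Or.inl ⟨hn.1, h2⟩
    · exact Or.inr ⟨hn.1, h2⟩
  exact_mod_cast (card_le_card h1).trans (card_union_le _ _)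

/-- the restriction to some windows -/
noncomputable def rst (X : Finset ℕ) (g : ℕ → (Fin d → ℤ) → ℝ) (k : ℕ) (ν : Fin d → ℤ) : ℝ := if k ∈ X then g k ν else 0

lemma rst_dat (h : Dat d s K q g) (X : Finset ℕ) : Dat d s K q (rst X g) where
  q1 := h.q1
  cop := h.cop
  per := by
    intro k hk ν ν' hν
    unfold rst
    rw [h.per k hk ν ν' hν]
  bd := by
    intro k hk ν
    unfold rst
    split_ifs
    · exact h.bd k hk ν
    · rw [abs_zero]
      exact zero_le_one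

lemma rst_nonneg (h0 : ∀ k < K, ∀ ν, 0 ≤ g k ν) (X : Finset ℕ) : ∀ k < K, ∀ ν, 0 ≤ rst X g k ν := by
  intro k hk ν
  unfold rst
  split_ifs
  · exact h0 k hk ν
  · exact le_rfl

lemma rst_G (h : Dat d s K q g) {X : Finset ℕ} (hX : X ⊆ range K) (ν : Fin d → ℤ) :
    ∑ k ∈ range K, G s q (rst X g) k ν = ∑ k ∈ X, G s q g k ν := by
  have h1 : ∀ k ∈ range K, G s q (rst X g) k ν = if k ∈ X then G s q g k ν else 0 := by
    intro k hk
    unfold G
    by_cases hk' : k ∈ X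
    · have e : rst X g k = g k := by
        funext ν
        unfold rst
        rw [if_pos hk']
      rw [if_pos hk', e]
    · have e : rst X g k = fun _ => 0 := by
        funext ν
        unfold rst
        rw [if_neg hk']
      rw [if_neg hk', e, avg_const (h.wm_pos (mem_range.1 hk)), sub_zero]
  rw [sum_congr rfl h1, ← sum_filter]
  congr 1
  ext k
  rw [mem_filter]
  exact ⟨fun h => h.2, fun h => ⟨hX h, h⟩⟩

lemma rst_avg (h : Dat d s K q g) {X : Finset ℕ} (hX : X ⊆ range K) :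
    ∑ k ∈ range K, avg d (wm q s k) (rst X g k) ≤ X.card := by
  have h1 : ∀ k ∈ range K, avg d (wm q s k) (rst X g k) ≤ if k ∈ X then 1 else 0 := by
    intro k hk
    have hw := h.wm_pos (mem_range.1 hk)
    by_cases hk' : k ∈ X
    · rw [if_pos hk']
      exact (abs_le.1 (avg_abs hw ((rst_dat h X).bd k (mem_range.1 hk)))).2
    · have e : rst X g k = fun _ => 0 := by
        funext ν
        unfold rst
        rw [if_neg hk']
      rw [if_neg hk', e, avg_const hw]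
  refine (sum_le_sum h1).trans ?_
  rw [← sum_filter, sum_const, nsmul_eq_mul, mul_one]
  have : ((range K).filter fun k => k ∈ X) ⊆ X := fun k hk => (mem_filter.1 hk).2
  exact_mod_cast card_le_card this

/-- the sum of the block sums -/
lemma F_sum (h : Dat d s K q g) {B : ℕ} (hB : 0 < B) (ν : Fin d → ℤ) :
    ∑ j ∈ range (K / B + 1), F s K B g j ν =
      ∑ j ∈ range (K / B + 1), avg d (Qb s K B q j) (F s K B g j) + (∑ k ∈ inn s K B, G s q g k ν) / B := by
  have h1 : ∑ j ∈ range (K / B + 1), F s K B g j ν - ∑ j ∈ range (K / B + 1), avg d (Qb s K B q j) (F s K B g j) =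
      (∑ k ∈ inn s K B, G s q g k ν) / B := by
    rw [← sum_sub_distrib, sum_div, ← sum_blk s K B fun k => G s q g k ν / B]
    exact sum_congr rfl fun j _ => h.F_sub hB j ν
  linarith

lemma Qb_le {Y : ℕ} (hY1 : 1 ≤ Y) (hY : ∀ i < K + s, q i ≤ Y) {B : ℕ} (hB : 0 < B) (j : ℕ) : Qb s K B q j ≤ Y ^ B := by
  unfold Qb
  calc ∏ i ∈ (range (K + s)).filter (fun i => i / B = j), q i ≤ ∏ _i ∈ (range (K + s)).filter (fun i => i / B = j), Y :=
        prod_le_prod' fun i hi => hY i (mem_range.1 (mem_filter.1 hi).1)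
    _ = Y ^ ((range (K + s)).filter (fun i => i / B = j)).card := by rw [prod_const]
    _ ≤ Y ^ B := Nat.pow_le_pow_right (by omega) (card_fib (K + s) B j hB)

lemma card_blocks {Y : ℕ} (hY2 : 2 ≤ Y) (hKY : K ≤ Y) {B : ℕ} (hB2 : 2 ≤ B) : (range (K / B + 1)).card ≤ Y ^ B := by
  rw [card_range]
  have h2 : K / B ≤ K := Nat.div_le_self K B
  calc K / B + 1 ≤ Y + 1 := by omega
    _ ≤ Y ^ 2 := by nlinarith
    _ ≤ Y ^ B := Nat.pow_le_pow_right (by omega) hB2

/-- the windows outside of the blocks -/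
theorem rem_tail (s : ℕ) : ∃ C : ℝ, 1 ≤ C ∧ ∀ (d K : ℕ) (q : ℕ → ℕ) (g : ℕ → (Fin d → ℤ) → ℝ), Dat d s K q g →
    (∀ k < K, ∀ ν, 0 ≤ g k ν) → ∀ (B : ℕ), 0 < B → B ≤ K → ∀ y w : ℝ, 1 ≤ y → 21 * y ^ 2 ≤ 2 * (s + 1) * (K / B) →
      C * K ≤ w * B →
      ∀ Y : ℕ, 2 ≤ Y → (∀ i < K + s, q i ≤ Y) → K ≤ Y → ∀ (m : Fin d → ℤ) (L : Fin d → ℕ),
        (∀ i, (d + 1) * (Y : ℝ) ^ (43 * (s + 1) * y ^ 2) ≤ L i) →
        zprop m L (fun ν => y * √w ≤ |∑ k ∈ rem s K B, G s q g k ν|) ≤ Real.exp (-(20 * y ^ 2)) := by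
  classical
  obtain ⟨C, hC, ht⟩ := tail_r s
  refine ⟨126 * C * (s + 1), by
    have : (0 : ℝ) ≤ s := Nat.cast_nonneg s
    nlinarith, ?_⟩
  intro d K q g h h0 B hB hBK y w hy hyK hw Y hY2 hY hKY m L hL
  obtain ⟨r, hr⟩ : ∃ r : ℕ, r = ⌈20 * y ^ 2⌉₊ := ⟨_, rfl⟩
  have hy2 : 1 ≤ y ^ 2 := one_le_pow₀ hy
  have hr1 : 20 * y ^ 2 ≤ r := by rw [hr]; exact Nat.le_ceil _
  have hr2 : (r : ℝ) ≤ 21 * y ^ 2 := by
    have : (r : ℝ) < 20 * y ^ 2 + 1 := by rw [hr]; exact Nat.ceil_lt_add_one (by positivity)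
    linarith
  have hr3 : 1 ≤ r := by
    have : (1 : ℝ) ≤ r := by linarith
    exact_mod_cast this
  have hB0 : (0 : ℝ) < B := by exact_mod_cast hB
  have hKB : (B : ℝ) ≤ K := by exact_mod_cast hBK
  have hKB1 : 1 ≤ (K : ℝ) / B := (one_le_div hB0).2 hKB
  have hs0 : (0 : ℝ) ≤ s := Nat.cast_nonneg s
  obtain ⟨N, hN⟩ : ∃ N : ℝ, N = 2 * (s + 1) * (K / B) := ⟨_, rfl⟩
  have hrem : rem s K B ⊆ range K := filter_subset _ _
  have hY0 : (1 : ℝ) ≤ Y := by
    have : (2 : ℝ) ≤ Y := by exact_mod_cast hY2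
    linarith
  have hN1 : ∑ k ∈ range K, avg d (wm q s k) (rst (rem s K B) g k) ≤ N := by
    refine (rst_avg h hrem).trans ((card_rem s K B hB).trans ?_)
    rw [hN]
    nlinarith
  have hw0 : 0 < w := by
    have hK0 : (0 : ℝ) < K := lt_of_lt_of_le hB0 hKB
    have h1 : 0 < 126 * C * (s + 1) * (K : ℝ) := by positivity
    exact pos_of_mul_pos_left (h1.trans_le hw) hB0.le
  have hu : 0 < y * √w := mul_pos (by linarith) (Real.sqrt_pos.2 hw0)
  have hLpos : ∀ i, (0 : ℝ) < L i := fun i => lt_of_lt_of_le (by positivity) (hL i)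
  have hP0 : 0 < ∏ i, (L i : ℝ) := prod_pos fun i _ => hLpos i
  have h1 := ht r hr3 d K q (rst (rem s K B) g) (rst_dat h _) (rst_nonneg h0 _) N (by rw [hN]; linarith) hN1 Y hY hKY m L
    (fun i => by
      refine le_trans ?_ (hL i)
      have h2 : (2 : ℝ) * (d + 1) * (Y : ℝ) ^ (2 * r * s + 2 * r) = (d + 1) * (2 * (Y : ℝ) ^ (2 * r * s + 2 * r)) := by ring
      rw [h2]
      refine mul_le_mul_of_nonneg_left ?_ (by positivity)
      calc (2 : ℝ) * (Y : ℝ) ^ (2 * r * s + 2 * r) ≤ Y * (Y : ℝ) ^ (2 * r * s + 2 * r) := by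
            refine mul_le_mul_of_nonneg_right ?_ (by positivity)
            exact_mod_cast hY2
        _ = (Y : ℝ) ^ ((2 * r * s + 2 * r + 1 : ℕ) : ℝ) := by
            rw [Real.rpow_natCast, pow_succ]
            ring
        _ ≤ _ := by
            refine Real.rpow_le_rpow_of_exponent_le hY0 ?_
            push_cast
            have h3 : (2 : ℝ) * r * s + 2 * r + 1 = 2 * (s + 1) * r + 1 := by ring
            rw [h3]
            have h4 : 2 * ((s : ℝ) + 1) * r ≤ 2 * (s + 1) * (21 * y ^ 2) := mul_le_mul_of_nonneg_left hr2 (by positivity)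
            nlinarith) (y * √w) hu
  have h2 : zprop m L (fun ν => y * √w ≤ |∑ k ∈ rem s K B, G s q g k ν|) ≤ (C * (r * N) / (y * √w) ^ 2) ^ r := by
    unfold zprop
    rw [div_le_iff₀ hP0, mul_comm ((C * (r * N) / (y * √w) ^ 2) ^ r)]
    simp only [rst_G h hrem] at h1
    exact h1
  refine h2.trans ?_
  have h3 : C * (r * N) / (y * √w) ^ 2 ≤ Real.exp (-1) := by
    rw [mul_pow, Real.sq_sqrt hw0.le, div_le_iff₀ (by positivity)]
    have h4 : (1 : ℝ) / 3 ≤ Real.exp (-1) := by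
      rw [Real.exp_neg, ← one_div]
      exact one_div_le_one_div_of_le (Real.exp_pos 1) exp_one_le_three
    have h5 : C * (r * N) ≤ C * (21 * y ^ 2 * N) := by
      refine mul_le_mul_of_nonneg_left (mul_le_mul_of_nonneg_right hr2 ?_) (by linarith)
      rw [hN]
      positivity
    refine h5.trans (le_trans ?_ (mul_le_mul_of_nonneg_right h4 (by positivity)))
    have h6 : 126 * C * (s + 1) * (K / B) ≤ w := by
      have h7 : 126 * C * (s + 1) * ((K : ℝ) / B) = (126 * C * (s + 1) * K) / B := by ring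
      rw [h7, div_le_iff₀ hB0]
      exact hw
    rw [hN]
    have h7 : C * (21 * y ^ 2 * (2 * (s + 1) * ((K : ℝ) / B))) = y ^ 2 * (126 * C * (s + 1) * (K / B)) / 3 := by ring
    rw [h7]
    have h8 := mul_le_mul_of_nonneg_left h6 (by positivity : 0 ≤ y ^ 2)
    linarith
  calc (C * (r * N) / (y * √w) ^ 2) ^ r ≤ Real.exp (-1) ^ r := by
        refine pow_le_pow_left₀ ?_ h3 r
        have : 0 ≤ N := by rw [hN]; positivity
        positivity
    _ = Real.exp (-(r : ℝ)) := by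
        rw [← Real.exp_nat_mul]
        congr 1
        ring
    _ ≤ _ := Real.exp_le_exp.2 (by linarith)

end Q69DL
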